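import Mathlib
import Pool.Agent.MP_18a942_nt.Avg
import Pool.Agent.MP_18a942_nt.Params

/-!
Primes in progressions with a small modulus; a positive proportion of the odd numbers lie just
above a prime of the form `8 k + 3`.
-/

set_option autoImplicit false

namespace Pool.Agent.MP_d8b1b3_co.H68

section

open Finset Filter Pool.Agent.MP_48b1c3_nt.H54 Pool.Agent.MP_18a942_nt

theorem primes_ap : ∀ᶠ x : ℕ in atTop, ∀ N a : ℕ, 0 < N → (N : ℝ) ≤ Real.log x → a.Coprime N →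
    (x : ℝ) / (20 * N * Real.log x) ≤
      #{p ∈ Ioc 0 x | x < 64 * p ∧ p.Prime ∧ p ≡ a [MOD N]} := by
  obtain ⟨C, hC⟩ := bombieri_vinogradov 1 3
  filter_upwards [tendsto_natCast_atTop_atTop.eventually (((hC.and wt_sum_lower).and
    (Real.tendsto_log_atTop.eventually_ge_atTop (20 * C))).and
      ((ev_log 1 (r := 1 / 20) (c := 1) (by norm_num) one_pos).and (eventually_ge_atTop 3)))]
    with x ⟨⟨⟨h4, h5⟩, h6⟩, h1, h3⟩ N a hN hNx ha
  have L1 : 1 ≤ Real.log x := sw_one_le h3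
  have x0 : (0 : ℝ) < x := by linarith
  have N0 : (0 : ℝ) < N := by exact_mod_cast hN
  rw [pow_one, one_mul] at h1
  have h7 := h4 {N} (fun _ => a) fun M hM => by
    rw [mem_singleton.mp hM]
    exact ⟨hN, hNx.trans h1, ha⟩
  simp only [sum_singleton, Nat.cast_one, one_pow, one_mul, Err] at h7
  have h8 : C * x / Real.log x ^ 3 ≤ x / (20 * N) := by
    rw [div_le_div_iff₀ (by positivity) (by positivity)]
    calc C * x * (20 * N) = 20 * C * N * x := by ring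
      _ ≤ Real.log x * Real.log x ^ 2 * x := by
          gcongr
          exact hNx.trans (le_self_pow₀ L1 two_ne_zero)
      _ = _ := by ring
  have h9 : (x : ℝ) / (10 * N) ≤ (∑ n ∈ Icc 1 ⌊(x : ℝ)⌋₊, wt x n) / N.totient := by
    have a1 : (0 : ℝ) < N.totient := by exact_mod_cast Nat.totient_pos.mpr hN
    have a2 : (N.totient : ℝ) ≤ N := by exact_mod_cast Nat.totient_le N
    rw [← div_div]
    exact div_le_div₀ (le_trans (by positivity) h5) h5 a1 a2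
  set F := (Icc 1 ⌊(x : ℝ)⌋₊).filter fun n => n ≡ a [MOD N] with hF
  have h10 : (x : ℝ) / (20 * N) ≤ ∑ n ∈ F with wt x n ≠ 0, wt x n := by
    have e : (x : ℝ) / (10 * N) = 2 * (x / (20 * N)) := by field_simp; ring
    rw [sum_filter_ne_zero]
    linarith [(abs_le.mp (h7.trans h8)).1]
  have h11 : ∑ n ∈ F with wt x n ≠ 0, wt x n ≤ #{n ∈ F | wt x n ≠ 0} * Real.log x := by
    refine (sum_le_card_nsmul _ _ _ fun m hm => (wt_le _ m).trans ?_).trans_eq (nsmul_eq_mul _ _)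
    obtain ⟨-, k2, k3⟩ := mem_PI.1 (mem_PI_of_wt x0 (mem_filter.mp hm).2)
    exact Real.log_le_log (by exact_mod_cast k3.pos) k2
  have h12 : #{n ∈ F | wt x n ≠ 0} ≤ #{p ∈ Ioc 0 x | x < 64 * p ∧ p.Prime ∧ p ≡ a [MOD N]} := by
    refine card_le_card fun m hm => ?_
    obtain ⟨k0, k⟩ := mem_filter.mp hm
    obtain ⟨k1, k2, k3⟩ := mem_PI.1 (mem_PI_of_wt x0 k)
    rw [div_lt_iff₀ (Real.exp_pos _)] at k1
    have k5 : (x : ℝ) < 64 * m := by nlinarith [m.cast_nonneg (α := ℝ), exp_four_le]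
    exact mem_filter.mpr ⟨mem_Ioc.mpr ⟨k3.pos, by exact_mod_cast k2⟩, by exact_mod_cast k5, k3,
      (mem_filter.mp k0).2⟩
  have h13 : (#{n ∈ F | wt x n ≠ 0} : ℝ) ≤ _ := Nat.cast_le.mpr h12
  rw [← div_div, div_le_iff₀ (by linarith)]
  exact (h10.trans h11).trans (mul_le_mul_of_nonneg_right h13 (by linarith))

lemma exists_subset_sum (Q : Finset ℕ) (f : ℕ → ℝ) (hf : ∀ q ∈ Q, f q ≤ 1)
    (h : 1 ≤ ∑ q ∈ Q, f q) : ∃ Q' ⊆ Q, 1 ≤ ∑ q ∈ Q', f q ∧ ∑ q ∈ Q', f q ≤ 2 := by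
  induction Q using Finset.induction_on with
  | empty => norm_num at h
  | insert a s ha ih =>
    by_cases h1 : 1 ≤ ∑ q ∈ s, f q
    · obtain ⟨Q', h2, h3⟩ := ih (fun q hq => hf q (mem_insert_of_mem hq)) h1
      exact ⟨Q', h2.trans (subset_insert a s), h3⟩
    · refine ⟨_, Subset.rfl, h, ?_⟩
      rw [sum_insert ha]
      linarith [hf a (mem_insert_self a s), not_le.mp h1]

lemma harmonic_blocks {J : ℕ} (hJ : 0 < J) (s : ℕ) :
    (s : ℝ) / 2 ≤ ∑ j ∈ Ico J (J * 2 ^ s), (1 : ℝ) / (j + 1) := by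
  induction s with
  | zero => simp
  | succ s ih =>
    have h1 : J ≤ J * 2 ^ s := Nat.le_mul_of_pos_right J (by positivity)
    have h2 : J * 2 ^ (s + 1) = J * 2 ^ s + J * 2 ^ s := by ring
    rw [h2]
    generalize J * 2 ^ s = M at ih h1
    have M0 : (0 : ℝ) < M := by exact_mod_cast hJ.trans_le h1
    rw [← sum_Ico_consecutive _ h1 (Nat.le_add_right M M)]
    have h3 : #(Ico M (M + M)) • (1 / (2 * M) : ℝ) ≤ ∑ j ∈ Ico M (M + M), (1 : ℝ) / (j + 1) := by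
      refine card_nsmul_le_sum _ _ _ fun j hj => one_div_le_one_div_of_le (by positivity) ?_
      have : j + 1 ≤ 2 * M := by have := (mem_Ico.mp hj).2; omega
      exact_mod_cast this
    rw [Nat.card_Ico, Nat.add_sub_cancel, nsmul_eq_mul] at h3
    have h4 : (M : ℝ) * (1 / (2 * M)) = 1 / 2 := by field_simp
    push_cast
    linarith

lemma Primes_sq_le {l : ℕ} (hl : 30 ≤ l) : (264 * (l + 2)) ^ 2 ≤ 2 ^ l := by
  induction l, hl using Nat.le_induction with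
  | base => norm_num
  | succ n hn ih =>
    rw [pow_succ 2 n]
    nlinarith

lemma Primes_block {K j : ℕ} (hK : 0 < K) (hj : K ≤ j + 1)
    (h : ∀ N a : ℕ, 0 < N → (N : ℝ) ≤ Real.log ((64 ^ (j + 1) : ℕ) : ℝ) → a.Coprime N →
      ((64 ^ (j + 1) : ℕ) : ℝ) / (20 * N * Real.log ((64 ^ (j + 1) : ℕ) : ℝ)) ≤
        #{p ∈ Ioc 0 (64 ^ (j + 1)) | 64 ^ (j + 1) < 64 * p ∧ p.Prime ∧ p ≡ a [MOD N]}) :
    1 / (84 * (K : ℝ)) * (1 / (j + 1)) ≤
      ∑ q ∈ {p ∈ Ioc 0 (64 ^ (j + 1)) | 64 ^ (j + 1) < 64 * p ∧ p.Prime ∧ p ≡ 1 [MOD K]},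
        (1 : ℝ) / q := by
  have e : Real.log ((64 ^ (j + 1) : ℕ) : ℝ) = (j + 1) * (6 * Real.log 2) := by
    rw [Nat.cast_pow, Real.log_pow, show ((64 : ℕ) : ℝ) = 2 ^ 6 by norm_num, Real.log_pow]
    push_cast
    ring
  have K0 : (0 : ℝ) < K := by exact_mod_cast hK
  have j0 : (0 : ℝ) < j + 1 := by positivity
  have a1 := Real.log_two_gt_d9
  have a2 := Real.log_two_lt_d9
  have a3 : (K : ℝ) ≤ j + 1 := by exact_mod_cast hj
  have h1 := h K 1 hK (by rw [e]; nlinarith) (Nat.coprime_one_left K)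
  rw [e] at h1
  have x0 : (0 : ℝ) < ((64 ^ (j + 1) : ℕ) : ℝ) := by positivity
  clear h e
  generalize 64 ^ (j + 1) = x at h1 x0 ⊢
  have h2 := card_nsmul_le_sum {p ∈ Ioc 0 x | x < 64 * p ∧ p.Prime ∧ p ≡ 1 [MOD K]}
    (fun q => (1 : ℝ) / q) (1 / x) fun q hq => by
      obtain ⟨k1, k2⟩ := mem_Ioc.mp (mem_filter.mp hq).1
      exact one_div_le_one_div_of_le (by exact_mod_cast k1) (by exact_mod_cast k2)
  rw [nsmul_eq_mul] at h2
  refine le_trans ?_ ((mul_le_mul_of_nonneg_right h1 (by positivity)).trans h2)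
  have e2 : (x : ℝ) / (20 * K * ((j + 1) * (6 * Real.log 2))) * (1 / x) =
      1 / (20 * K * ((j + 1) * (6 * Real.log 2))) := by field_simp
  rw [one_div_mul_one_div, e2]
  refine one_div_le_one_div_of_le (by positivity) ?_
  nlinarith [mul_pos K0 j0]

theorem good_primes : ∀ᶠ X : ℕ in atTop, ∀ K : ℕ, 0 < K → 2 ^ (1000 * K) ≤ Nat.log 2 X →
    ∃ Q : Finset ℕ,
      (∀ q ∈ Q, q.Prime ∧ q ≡ 1 [MOD K] ∧ (2 * Nat.log 2 X) ^ 64 ≤ q ∧ q ^ 4 ≤ X) ∧
      1 ≤ ∑ q ∈ Q, (1 : ℝ) / q ∧ ∑ q ∈ Q, (1 : ℝ) / q ≤ 2 := by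
  obtain ⟨x₀, hx₀⟩ := eventually_atTop.1 primes_ap
  filter_upwards [eventually_ge_atTop (2 ^ 2 ^ x₀)] with X hX K hK hKL
  have X0 : X ≠ 0 := (lt_of_lt_of_le (by positivity) hX).ne'
  have hXL := Nat.pow_log_le_self 2 X0
  have hL0 : 2 ^ x₀ ≤ Nat.log 2 X := Nat.le_log_of_pow_le one_lt_two hX
  generalize Nat.log 2 X = L at *
  have L0 : L ≠ 0 := (lt_of_lt_of_le (by positivity) hKL).ne'
  have l1 : x₀ ≤ Nat.log 2 L := Nat.le_log_of_pow_le one_lt_two hL0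
  have l2 : 1000 * K ≤ Nat.log 2 L := Nat.le_log_of_pow_le one_lt_two hKL
  have l3 := Nat.pow_log_le_self 2 L0
  have l4 := Nat.lt_pow_succ_log_self one_lt_two L
  generalize Nat.log 2 L = l at *
  obtain ⟨J, hJ⟩ : ∃ J, J = 11 * (l + 2) := ⟨_, rfl⟩
  have s1 : (2 * L) ^ 64 ≤ 64 ^ J := by
    have a1 : 2 * L ≤ 2 ^ (l + 2) := by
      rw [pow_succ' 2 (l + 1)]
      exact Nat.mul_le_mul_left 2 l4.le
    calc (2 * L) ^ 64 ≤ (2 ^ (l + 2)) ^ 64 := Nat.pow_le_pow_left a1 _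
      _ = 2 ^ ((l + 2) * 64) := (pow_mul _ _ _).symm
      _ ≤ 2 ^ (6 * J) := Nat.pow_le_pow_right two_pos (by omega)
      _ = 64 ^ J := by rw [pow_mul]; norm_num
  have s2 : 24 * J * 2 ^ (200 * K) ≤ L := by
    have a1 : (24 * J) ^ 2 ≤ L := by
      refine le_trans (le_of_eq ?_) ((Primes_sq_le (l := l) (by omega)).trans l3)
      rw [hJ]; ring
    have a2 : (2 ^ (200 * K)) ^ 2 ≤ L := by
      rw [← pow_mul]
      exact (Nat.pow_le_pow_right two_pos (by omega)).trans hKL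
    refine (Nat.pow_le_pow_iff_left two_ne_zero).mp ?_
    rw [mul_pow, sq L]
    exact Nat.mul_le_mul a1 a2
  obtain ⟨B, hB⟩ : ∃ B : ℕ → Finset ℕ, ∀ j, B j =
    {p ∈ Ioc 0 (64 ^ (j + 1)) | 64 ^ (j + 1) < 64 * p ∧ p.Prime ∧ p ≡ 1 [MOD K]} :=
    ⟨_, fun _ => rfl⟩
  have b1 : ∀ j, ∀ p ∈ B j, 64 ^ j < p ∧ p ≤ 64 ^ (j + 1) ∧ p.Prime ∧ p ≡ 1 [MOD K] :=
    fun j p hp => by
      rw [hB] at hp
      obtain ⟨k1, k2, k3⟩ := mem_filter.mp hp
      rw [pow_succ'] at k2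
      exact ⟨Nat.lt_of_mul_lt_mul_left k2, (mem_Ioc.mp k1).2, k3⟩
  have b2 : ∀ i j, i < j → Disjoint (B i) (B j) := fun i j hij =>
    disjoint_left.mpr fun p h1 h2 => absurd ((b1 j p h2).1.trans_le (b1 i p h1).2.1)
      (not_lt.mpr (Nat.pow_le_pow_right (by norm_num) hij))
  have b3 : 1 ≤ ∑ q ∈ (Ico J (J * 2 ^ (200 * K))).biUnion B, (1 : ℝ) / q := by
    rw [sum_biUnion fun i _ j _ hij =>
      (lt_or_gt_of_ne hij).elim (b2 i j) fun h => (b2 j i h).symm]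
    have K0 : (0 : ℝ) < K := by exact_mod_cast hK
    have a1 := harmonic_blocks (J := J) (by omega) (200 * K)
    have a2 : ∑ j ∈ Ico J (J * 2 ^ (200 * K)), 1 / (84 * (K : ℝ)) * (1 / (j + 1)) ≤
        ∑ j ∈ Ico J (J * 2 ^ (200 * K)), ∑ q ∈ B j, (1 : ℝ) / q := by
      refine sum_le_sum fun j hj => ?_
      have c1 := (mem_Ico.mp hj).1
      have c2 : j + 1 < 64 ^ (j + 1) := Nat.lt_pow_self (by norm_num)
      rw [hB]
      exact Primes_block hK (by omega) (hx₀ _ (le_trans (by omega) c2.le))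
    rw [← mul_sum] at a2
    refine le_trans ?_ a2
    refine le_trans ?_ (mul_le_mul_of_nonneg_left a1 (by positivity))
    push_cast
    rw [one_div_mul_eq_div, le_div_iff₀ (by positivity)]
    linarith
  have b4 : ∀ q ∈ (Ico J (J * 2 ^ (200 * K))).biUnion B,
      q.Prime ∧ q ≡ 1 [MOD K] ∧ (2 * L) ^ 64 ≤ q ∧ q ^ 4 ≤ X := fun q hq => by
    obtain ⟨j, hj, hq⟩ := mem_biUnion.mp hq
    obtain ⟨k1, k2, k3, k4⟩ := b1 j q hq
    obtain ⟨j1, j2⟩ := mem_Ico.mp hj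
    refine ⟨k3, k4, s1.trans ((Nat.pow_le_pow_right (by norm_num) j1).trans k1.le), ?_⟩
    calc q ^ 4 ≤ (64 ^ (j + 1)) ^ 4 := Nat.pow_le_pow_left k2 _
      _ = 2 ^ (24 * (j + 1)) := by
          rw [show (64 : ℕ) = 2 ^ 6 by norm_num, ← pow_mul, ← pow_mul]
          congr 1
          ring
      _ ≤ 2 ^ L := Nat.pow_le_pow_right two_pos
          ((Nat.mul_le_mul_left 24 j2).trans (by rwa [← mul_assoc]))
      _ ≤ X := hXL
  obtain ⟨Q, h1, h2⟩ := exists_subset_sum _ (fun q => (1 : ℝ) / q) (fun q hq => by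
    have : (1 : ℝ) ≤ q := by exact_mod_cast (b4 q hq).1.one_le
    exact (div_le_one (by linarith)).mpr this) b3
  exact ⟨Q, fun q hq => b4 q (h1 hq), h2⟩

end

section

open Finset Filter Pool.Agent.MP_a96b63_al Pool.Agent.MP_18a942_nt

lemma sum_hh_sq (D : ℕ) : ∑ h ∈ Ioc 0 D, hh h ^ 2 ≤ 32 * D := by
  set Q := (Ioc 2 D).filter Nat.Prime with hQ
  have hQ' : ∀ q ∈ Q, q.Prime ∧ 2 < q := fun q hq =>
    ⟨(mem_filter.mp hq).2, (mem_Ioc.mp (mem_filter.mp hq).1).1⟩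
  have h1 := large_part (k := 2) one_le_two Q hQ' D
  refine le_trans (sum_le_sum fun h hh' => ?_) ((mul_sum _ _ _).ge.trans
    ((mul_le_mul_of_nonneg_left h1 (by norm_num : (0 : ℝ) ≤ 4)).trans_eq (by ring)))
  obtain ⟨h2, h3⟩ := mem_Ioc.mp hh'
  have h4 : ∏ q ∈ Q, (1 + if q ∣ h then 1 / ((q : ℝ) - 1) else 0) =
      ∏ q ∈ Q with q ∣ h, (1 + 1 / ((q : ℝ) - 1)) := by
    rw [prod_filter (s := Q)]
    refine prod_congr rfl fun q _ => ?_
    split_ifs <;> simp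
  have h5 : (2 : ℕ) ∉ Q.filter (· ∣ h) := fun k => lt_irrefl _ (hQ' 2 (mem_filter.mp k).1).2
  have h6 : ∀ q ∈ insert 2 (Q.filter (· ∣ h)), q.Prime := fun q hq =>
    (mem_insert.mp hq).elim (fun e => e ▸ Nat.prime_two) fun k => (hQ' q (mem_filter.mp k).1).1
  have h7 : hh h ≤ ∏ q ∈ insert 2 (Q.filter (· ∣ h)), (1 + 1 / ((q : ℝ) - 1)) := by
    refine prod_le_prod_of_subset_of_one_le (fun q hq => ?_)
      (fun q hq => by have := inv_pred_nonneg (Nat.prime_of_mem_primeFactors hq); linarith)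
      fun q hq _ => by have := inv_pred_nonneg (h6 q hq); linarith
    obtain ⟨a, b, -⟩ := Nat.mem_primeFactors.mp hq
    have := a.two_le
    have := Nat.le_of_dvd h2 b
    simp only [hQ, mem_insert, mem_filter, mem_Ioc]
    rcases eq_or_ne q 2 with e | e
    · exact Or.inl e
    · exact Or.inr ⟨⟨⟨by omega, by omega⟩, a⟩, b⟩
  rw [prod_insert h5, ← h4] at h7
  refine (pow_le_pow_left₀ (hh_pos h).le h7 2).trans_eq ?_
  rw [mul_pow]
  norm_num

lemma prime_pairs : ∃ C : ℝ, 0 < C ∧ ∀ᶠ y : ℕ in atTop, ∀ h : ℕ, 0 < h →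
    (#{p ∈ Ioc 0 y | y < 128 * p ∧ p.Prime ∧ (p + h).Prime} : ℝ) ≤
      C * hh h ^ 2 * y / Real.log y ^ 2 := by
  refine ⟨801, by norm_num, ?_⟩
  filter_upwards [tendsto_natCast_atTop_atTop (R := ℝ).eventually (params'.and
    ((Real.tendsto_log_atTop.eventually_ge_atTop 20).and (eventually_ge_atTop 1)))]
    with y ⟨⟨w, _, _, h1, h2⟩, h3, h4⟩ h h0
  have a0 : 0 < Real.log y := by linarith
  have a1 : 1 ≤ Real.log y ^ 2 := one_le_pow₀ (by linarith)
  have a2 : 1 ≤ hh h ^ 2 := one_le_pow₀ (one_le_hh h)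
  have w2 : 2 ≤ w := by
    by_contra k
    have : Real.log w ≤ 0 := Real.log_nonpos (Nat.cast_nonneg w) (by exact_mod_cast (by omega))
    linarith
  have b1 : 2 * (w : ℝ) ^ 8 ≤ y / Real.log y ^ 2 :=
    le_trans (by nlinarith [pow_nonneg (Nat.cast_nonneg (α := ℝ) w) 8]) h2
  have b2 : 128 * w ≤ y := by
    have c1 : 2 ^ 7 * w ≤ w ^ 7 * w := Nat.mul_le_mul_right _ (Nat.pow_le_pow_left w2 7)
    have c2 : (w : ℝ) ^ 8 ≤ y := by
      have := div_le_self (Nat.cast_nonneg (α := ℝ) y) a1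
      nlinarith [pow_nonneg (Nat.cast_nonneg (α := ℝ) w) 8]
    have c3 : w ^ 8 ≤ y := by exact_mod_cast c2
    exact c1.trans ((pow_succ w 7).ge.trans c3)
  by_cases k : 2 ∣ h
  · have h5 := sieve_two (u := 1) (u' := 1) (r := 0) (r' := h) (D := h) h0.ne' w2 k (one_dvd _)
      (one_dvd _) (fun q _ hq => by simpa [Int.natCast_dvd_natCast] using hq) (y + 1)
    refine le_trans (Nat.cast_le.mpr (card_le_card fun p hp => ?_)) (h5.trans ?_)
    · obtain ⟨c1, c2, c3, c4⟩ := mem_filter.mp hp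
      have := (mem_Ioc.mp c1).2
      simp only [mem_filter, mem_range, one_mul, zero_add]
      exact ⟨by omega, ⟨c3, by omega⟩, add_comm p h ▸ c4, by omega⟩
    · have c1 : ((y + 1 : ℕ) : ℝ) * hh h ^ 2 / Real.log w ^ 2 ≤
          2 * y * hh h ^ 2 / (Real.log y / 20) ^ 2 := by
        gcongr
        push_cast
        linarith
      have c2 : (y : ℝ) / Real.log y ^ 2 ≤ hh h ^ 2 * y / Real.log y ^ 2 := by
        gcongr
        exact le_mul_of_one_le_left (by linarith) a2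
      refine (add_le_add c1 (b1.trans c2)).trans_eq ?_
      field_simp
      norm_num
  · rw [filter_eq_empty_iff.mpr, card_empty, Nat.cast_zero]
    · positivity
    · rintro p - ⟨c2, c3, c4⟩
      have := c3.eq_two_or_odd
      have := c4.eq_two_or_odd
      omega

lemma short_inter (D p p' : ℕ) :
    (#({w ∈ Ioc (p + 1) (p + 1 + D) | w % 2 = 1} ∩ {w ∈ Ioc (p' + 1) (p' + 1 + D) | w % 2 = 1}) :
      ℝ) ≤ D * ((if p' = p then 1 else 0) +
        ∑ h ∈ Ioc 0 D, ((if p' = p + h then 1 else 0) + if p = p' + h then 1 else 0)) := by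
  have h0 : ∀ h ∈ Ioc 0 D, (0 : ℝ) ≤ (if p' = p + h then 1 else 0) + if p = p' + h then 1 else 0 :=
    fun h _ => by positivity
  have h1 := sum_nonneg h0
  rcases ({w ∈ Ioc (p + 1) (p + 1 + D) | w % 2 = 1} ∩
    {w ∈ Ioc (p' + 1) (p' + 1 + D) | w % 2 = 1}).eq_empty_or_nonempty with h | ⟨w, hw⟩
  · rw [h, card_empty, Nat.cast_zero]
    positivity
  have h2 : #({w ∈ Ioc (p + 1) (p + 1 + D) | w % 2 = 1} ∩
      {w ∈ Ioc (p' + 1) (p' + 1 + D) | w % 2 = 1}) ≤ D :=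
    ((card_le_card inter_subset_left).trans (card_filter_le _ _)).trans_eq (by simp)
  refine (Nat.cast_le.mpr h2).trans (le_mul_of_one_le_right (Nat.cast_nonneg D) ?_)
  simp only [mem_inter, mem_filter, mem_Ioc] at hw
  rcases lt_trichotomy p p' with k | k | k
  · have h3 := single_le_sum h0 (a := p' - p) (mem_Ioc.mpr (by omega))
    rw [if_pos (by omega), if_neg (by omega)] at h3
    rw [if_neg (by omega)]
    linarith
  · rw [if_pos k.symm]
    linarith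
  · have h3 := single_le_sum h0 (a := p - p') (mem_Ioc.mpr (by omega))
    rw [if_neg (by omega), if_pos (by omega)] at h3
    rw [if_neg (by omega)]
    linarith

lemma short_double (P : Finset ℕ) (D : ℕ) :
    ∑ p ∈ P, ∑ p' ∈ P, (#({w ∈ Ioc (p + 1) (p + 1 + D) | w % 2 = 1} ∩
      {w ∈ Ioc (p' + 1) (p' + 1 + D) | w % 2 = 1}) : ℝ) ≤
      D * (#P + 2 * ∑ h ∈ Ioc 0 D, (#{p ∈ P | p + h ∈ P} : ℝ)) := by
  refine (sum_le_sum fun p _ => sum_le_sum fun p' _ => short_inter D p p').trans_eq ?_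
  have e1 : ∀ h, ∑ p ∈ P, ∑ p' ∈ P, (if p' = p + h then (1 : ℝ) else 0) =
      #{p ∈ P | p + h ∈ P} := fun h => by
    simp only [sum_ite_eq', sum_boole]
  have e2 : ∀ h, ∑ p ∈ P, ∑ p' ∈ P, (if p = p' + h then (1 : ℝ) else 0) =
      #{p ∈ P | p + h ∈ P} := fun h => by rw [sum_comm, e1]
  have e3 : ∑ p ∈ P, ∑ p' ∈ P, (if p' = p then (1 : ℝ) else 0) = #P := by
    rw [card_eq_sum_ones, Nat.cast_sum]
    exact sum_congr rfl fun p hp => by rw [sum_ite_eq', if_pos hp, Nat.cast_one]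
  simp only [← mul_sum, sum_add_distrib]
  rw [e3, two_mul]
  congr 3
  · simp only [← e1]
    rw [sum_congr rfl fun p _ => sum_comm, sum_comm]
  · simp only [← e2]
    rw [sum_congr rfl fun p _ => sum_comm, sum_comm]

lemma short_card {p : ℕ} (hp : p % 2 = 1) (D : ℕ) :
    (D : ℝ) / 2 ≤ #{w ∈ Ioc (p + 1) (p + 1 + D) | w % 2 = 1} := by
  have h := card_le_card_of_injOn (s := range ((D + 1) / 2))
    (t := {w ∈ Ioc (p + 1) (p + 1 + D) | w % 2 = 1}) (fun j => p + 2 + 2 * j)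
    (fun j hj => by
      have := mem_range.mp hj
      beta_reduce
      exact mem_filter.mpr ⟨mem_Ioc.mpr (by omega), by omega⟩) fun j _ j' _ e => by
      simp only at e
      omega
  rw [card_range] at h
  rw [div_le_iff₀ two_pos]
  exact_mod_cast (by omega)

theorem short_primes : ∃ ρ : ℝ, 0 < ρ ∧ ∀ᶠ y : ℕ in atTop,
    ρ * y ≤ #{w ∈ Ioc 0 y | w % 2 = 1 ∧ ∃ p ∈ Ioc 0 y, p.Prime ∧ p % 8 = 3 ∧ y < 128 * p ∧
      p + 1 < w ∧ w ≤ p + 1 + Nat.log 2 y} := by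
  obtain ⟨C, C0, hC⟩ := prime_pairs
  refine ⟨1 / (3840 * (1 + 245760 * C)), by positivity, ?_⟩
  have T : Tendsto (fun y : ℕ => y / 2) atTop atTop := Nat.tendsto_div_const_atTop two_ne_zero
  filter_upwards [hC, T.eventually primes_ap, T.eventually ((Real.tendsto_log_atTop.comp
    tendsto_natCast_atTop_atTop).eventually_ge_atTop 8), eventually_ge_atTop 8] with y h1 h2 h3 h4
  simp only [Function.comp] at h3
  have h5 := h2 8 3 (by norm_num) (by exact_mod_cast h3) (by norm_num)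
  set D := Nat.log 2 y with hD
  set P := {p ∈ Ioc 0 (y / 2) | y / 2 < 64 * p ∧ p.Prime ∧ p ≡ 3 [MOD 8]} with hP
  have hP' : ∀ p ∈ P, (0 < p ∧ p ≤ y / 2) ∧ y / 2 < 64 * p ∧ p.Prime ∧ p % 8 = 3 := fun p hp =>
    ⟨mem_Ioc.mp (mem_filter.mp hp).1, (mem_filter.mp hp).2⟩
  have d1 : 2 ^ D ≤ y := Nat.pow_log_le_self 2 (by omega)
  have d2 : y < 2 ^ (D + 1) := Nat.lt_pow_succ_log_self one_lt_two y
  have d3 : 3 ≤ D := Nat.le_log_of_pow_le one_lt_two h4
  have d4 : 2 * D + 2 ≤ y := by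
    obtain ⟨d, hd⟩ := Nat.exists_eq_add_of_le' (show 2 ≤ D by omega)
    have := Nat.lt_two_pow_self (n := d)
    rw [hd, pow_add] at d1
    omega
  have y0 : (0 : ℝ) < y := by exact_mod_cast (by omega)
  have D0 : (3 : ℝ) ≤ D := by exact_mod_cast d3
  have l1 : Real.log (y / 2 : ℕ) ≤ Real.log y :=
    Real.log_le_log (by exact_mod_cast (by omega)) (by exact_mod_cast Nat.div_le_self y 2)
  have l2 : Real.log y ≤ 2 * D := by
    have := Real.log_le_log y0 (show (y : ℝ) ≤ 2 ^ (D + 1) by exact_mod_cast d2.le)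
    rw [Real.log_pow] at this
    push_cast at this
    nlinarith [Real.log_two_lt_d9]
  have l3 : (D : ℝ) ≤ 2 * Real.log y := by
    have := Real.log_le_log (by positivity) (show (2 : ℝ) ^ D ≤ y by exact_mod_cast d1)
    rw [Real.log_pow] at this
    nlinarith [Real.log_two_gt_d9]
  have n1 : (y : ℝ) ≤ 960 * (D * #P) := by
    have c1 : (y : ℝ) ≤ 3 * (y / 2 : ℕ) := by exact_mod_cast (by omega)
    rw [div_le_iff₀ (by positivity)] at h5
    have c2 : (#P : ℝ) * (20 * (8 : ℕ) * Real.log (y / 2 : ℕ)) ≤ #P * (20 * (8 : ℕ) * (2 * D)) := by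
      gcongr
      exact l1.trans l2
    rw [Nat.cast_ofNat] at h5 c2
    linarith
  have s1 := second_moment P fun p => {w ∈ Ioc (p + 1) (p + 1 + D) | w % 2 = 1}
  have s2 : (D * #P : ℝ) / 2 ≤ ∑ p ∈ P, (#{w ∈ Ioc (p + 1) (p + 1 + D) | w % 2 = 1} : ℝ) := by
    refine le_trans (le_of_eq ?_) (sum_le_sum fun p hp => short_card (by have := hP' p hp; omega) D)
    rw [sum_const, nsmul_eq_mul]
    ring
  have s3 : ∑ h ∈ Ioc 0 D, (#{p ∈ P | p + h ∈ P} : ℝ) ≤ C * y / Real.log y ^ 2 * (32 * D) := by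
    refine le_trans (sum_le_sum fun h hh' => ?_) ((mul_sum _ _ _).ge.trans
      (mul_le_mul_of_nonneg_left (sum_hh_sq D) (by positivity)))
    refine le_trans (Nat.cast_le.mpr (card_le_card fun p hp => ?_))
      ((h1 h (mem_Ioc.mp hh').1).trans_eq (by ring))
    have c1 := hP' p (mem_filter.mp hp).1
    exact mem_filter.mpr ⟨mem_Ioc.mpr (by omega), by omega, c1.2.2.1,
      (hP' _ (mem_filter.mp hp).2).2.2.1⟩
  have s4 : (D : ℝ) * (#P + 2 * ∑ h ∈ Ioc 0 D, (#{p ∈ P | p + h ∈ P} : ℝ)) ≤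
      D * #P * (1 + 245760 * C) := by
    have c1 : (D : ℝ) * (C * y / Real.log y ^ 2 * (32 * D)) ≤ 128 * C * y := by
      have c0 : 0 < Real.log y := by linarith
      calc _ = 32 * C * y * D ^ 2 / Real.log y ^ 2 := by ring
        _ ≤ 32 * C * y * (2 * Real.log y) ^ 2 / Real.log y ^ 2 := by gcongr
        _ = _ := by field_simp; norm_num
    have c2 := mul_le_mul_of_nonneg_left s3 (Nat.cast_nonneg (α := ℝ) D)
    have c3 := mul_le_mul_of_nonneg_left n1 C0.le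
    linarith
  have s5 := ((pow_le_pow_left₀ (by positivity) s2 2).trans s1).trans
    (mul_le_mul_of_nonneg_left ((short_double P D).trans s4) (Nat.cast_nonneg _))
  refine le_trans ?_ (Nat.cast_le.mpr (card_le_card
    (s := P.biUnion fun p => {w ∈ Ioc (p + 1) (p + 1 + D) | w % 2 = 1}) fun w hw => ?_))
  · generalize (#(P.biUnion fun p => {w ∈ Ioc (p + 1) (p + 1 + D) | w % 2 = 1}) : ℝ) = u at *
    generalize (D * #P : ℝ) = n at *
    have c1 : n ≤ 4 * u * (1 + 245760 * C) :=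
      le_of_mul_le_mul_left (a := n) (by linarith) (by linarith)
    rw [one_div, inv_mul_le_iff₀ (by positivity)]
    linarith
  · obtain ⟨p, hp, hw⟩ := mem_biUnion.mp hw
    have c1 := hP' p hp
    simp only [mem_filter, mem_Ioc] at hw ⊢
    exact ⟨by omega, hw.2, p, by omega, c1.2.2.1, c1.2.2.2, by omega, hw.1⟩

end

end Pool.Agent.MP_d8b1b3_co.H68
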