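import Mathlib
import Pool.Agent.MP_d8b1b3_co.H14.Paley

/-!
Weighing matrices: the basic constructions; every positive weight `d` occurs in an order `128 u`
with `u` odd and `u ≤ d ^ 8`.
-/

set_option autoImplicit false

namespace Pool.Agent.MP_d8b1b3_co.H68

section

open Matrix
open scoped Kronecker

section

variable {I J : Type} [Fintype I] [DecidableEq I] [Fintype J] [DecidableEq J]

/-- `Y` is a weighing matrix of weight `w` -/
structure IsW (Y : Matrix I I ℤ) (w : ℕ) : Prop where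
  ent : ∀ i j, Y i j = 0 ∨ Y i j = 1 ∨ Y i j = -1
  row : Y * Yᵀ = (w : ℤ) • (1 : Matrix I I ℤ)
  col : Yᵀ * Y = (w : ℤ) • (1 : Matrix I I ℤ)

lemma col_of_row {Y : Matrix I I ℤ} {w : ℤ} (hw : w ≠ 0)
    (h : Y * Yᵀ = w • (1 : Matrix I I ℤ)) : Yᵀ * Y = w • (1 : Matrix I I ℤ) := by
  have hd : Y.det ≠ 0 := by
    intro h0
    have := congrArg Matrix.det h
    rw [det_mul, h0, zero_mul, det_smul, det_one, mul_one] at this
    exact pow_ne_zero _ hw this.symm
  have h1 : Y * (Yᵀ * Y - w • (1 : Matrix I I ℤ)) = 0 := by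
    rw [Matrix.mul_sub, ← Matrix.mul_assoc, h, Matrix.smul_mul, Matrix.mul_smul, Matrix.one_mul,
      Matrix.mul_one, sub_self]
  have h2 := congrArg (fun Z => Y.adjugate * Z) h1
  simp only [← Matrix.mul_assoc, adjugate_mul, Matrix.smul_mul, Matrix.one_mul,
    Matrix.mul_zero] at h2
  exact sub_eq_zero.1 ((smul_eq_zero.1 h2).resolve_left hd)

lemma IsW.of_row {Y : Matrix I I ℤ} {w : ℕ} (hw : 0 < w)
    (he : ∀ i j, Y i j = 0 ∨ Y i j = 1 ∨ Y i j = -1)
    (h : Y * Yᵀ = (w : ℤ) • (1 : Matrix I I ℤ)) : IsW Y w :=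
  ⟨he, h, col_of_row (by exact_mod_cast hw.ne') h⟩

lemma IsW.transpose {Y : Matrix I I ℤ} {w : ℕ} (h : IsW Y w) : IsW Yᵀ w :=
  ⟨fun i j => h.ent j i, by rw [transpose_transpose, h.col], by rw [transpose_transpose, h.row]⟩

lemma IsW.neg {Y : Matrix I I ℤ} {w : ℕ} (h : IsW Y w) : IsW (-Y) w := by
  refine ⟨fun i j => ?_, by simpa using h.row, by simpa using h.col⟩
  rcases h.ent i j with e | e | e <;> simp [e]

lemma IsW.submatrix {Y : Matrix I I ℤ} {w : ℕ} (h : IsW Y w) (e f : J ≃ I) :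
    IsW (Y.submatrix e f) w := by
  refine ⟨fun i j => h.ent _ _, ?_, ?_⟩
  · rw [transpose_submatrix, submatrix_mul_equiv, h.row]
    ext i j
    simp only [Matrix.submatrix_apply, Matrix.smul_apply, Matrix.one_apply, e.injective.eq_iff]
  · rw [transpose_submatrix, submatrix_mul_equiv, h.col]
    ext i j
    simp only [Matrix.submatrix_apply, Matrix.smul_apply, Matrix.one_apply, f.injective.eq_iff]

lemma IsW.one : IsW (1 : Matrix I I ℤ) 1 := by
  refine ⟨fun i j => ?_, by simp, by simp⟩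
  rw [Matrix.one_apply]; split_ifs <;> simp

lemma IsW.zero : IsW (0 : Matrix I I ℤ) 0 := ⟨fun i j => by simp, by simp, by simp⟩

lemma IsW.kron {A : Matrix I I ℤ} {B : Matrix J J ℤ} {a b : ℕ} (h : IsW A a) (h' : IsW B b) :
    IsW (A ⊗ₖ B) (a * b) := by
  have k : (A ⊗ₖ B)ᵀ = Aᵀ ⊗ₖ Bᵀ := by rw [← kroneckerMap_transpose]
  refine ⟨fun i j => ?_, ?_, ?_⟩
  · rw [kronecker_apply]
    rcases h.ent i.1 j.1 with e | e | e <;> rcases h'.ent i.2 j.2 with e' | e' | e' <;>
      simp [e, e']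
  · rw [k, ← mul_kronecker_mul, h.row, h'.row, smul_kronecker, kronecker_smul, one_kronecker_one,
      smul_smul, Nat.cast_mul]
  · rw [k, ← mul_kronecker_mul, h.col, h'.col, smul_kronecker, kronecker_smul, one_kronecker_one,
      smul_smul, Nat.cast_mul]

lemma IsW.blocks {A : Matrix I I ℤ} {B : Matrix J J ℤ} {w : ℕ} (h : IsW A w) (h' : IsW B w) :
    IsW (fromBlocks A 0 0 B) w := by
  refine ⟨?_, ?_, ?_⟩
  · rintro (i | i) (j | j)
    · exact h.ent i j
    · simp
    · simp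
    · exact h'.ent i j
  · rw [fromBlocks_transpose, fromBlocks_multiply, h.row, h'.row, ← fromBlocks_one,
      fromBlocks_smul]
    simp
  · rw [fromBlocks_transpose, fromBlocks_multiply, h.col, h'.col, ← fromBlocks_one,
      fromBlocks_smul]
    simp

/-- the sum construction -/
def sumM (A : Matrix I I ℤ) (B : Matrix J J ℤ) :
    Matrix ((J × I) ⊕ (J × I)) ((J × I) ⊕ (J × I)) ℤ :=
  fromBlocks ((1 : Matrix J J ℤ) ⊗ₖ A) (B ⊗ₖ (1 : Matrix I I ℤ))
    (-(Bᵀ ⊗ₖ (1 : Matrix I I ℤ))) ((1 : Matrix J J ℤ) ⊗ₖ Aᵀ)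

lemma IsW.sum {A : Matrix I I ℤ} {B : Matrix J J ℤ} {a b : ℕ} (h : IsW A a) (h' : IsW B b) :
    IsW (sumM A B) (a + b) := by
  have k1 := (IsW.one (I := J)).kron h
  have k2 := h'.kron (IsW.one (I := I))
  have k3 := (h'.transpose.kron (IsW.one (I := I))).neg
  have k4 := (IsW.one (I := J)).kron h.transpose
  have t : ∀ (P : Matrix J J ℤ) (Q : Matrix I I ℤ), (P ⊗ₖ Q)ᵀ = Pᵀ ⊗ₖ Qᵀ := fun P Q => by
    rw [← kroneckerMap_transpose]
  refine ⟨?_, ?_, ?_⟩
  · rintro (i | i) (j | j)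
    exacts [k1.ent i j, k2.ent i j, k3.ent i j, k4.ent i j]
  · rw [sumM, fromBlocks_transpose, fromBlocks_multiply, k1.row, k2.row, k3.row, k4.row,
      ← fromBlocks_one, fromBlocks_smul]
    simp only [t, transpose_neg, transpose_one, transpose_transpose, Matrix.mul_neg,
      Matrix.neg_mul, ← mul_kronecker_mul, Matrix.one_mul, Matrix.mul_one, neg_add_cancel,
      smul_zero, ← add_smul]
    congr 2 <;> (push_cast; ring)
  · rw [sumM, fromBlocks_transpose, fromBlocks_multiply, k1.col, k2.col, k3.col, k4.col,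
      ← fromBlocks_one, fromBlocks_smul]
    simp only [t, transpose_neg, transpose_one, transpose_transpose, Matrix.mul_neg,
      Matrix.neg_mul, ← mul_kronecker_mul, Matrix.one_mul, Matrix.mul_one, add_neg_cancel,
      smul_zero, ← add_smul]
    congr 2 <;> (push_cast; ring)

lemma IsW.sum_abs {Y : Matrix I I ℤ} {w : ℕ} (h : IsW Y w) (i : I) : ∑ j, |Y i j| = w := by
  have := congrFun (congrFun h.row i) i
  simp only [Matrix.mul_apply, transpose_apply, Matrix.smul_apply, Matrix.one_apply_eq,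
    smul_eq_mul, mul_one] at this
  rw [← this]
  refine Finset.sum_congr rfl fun j _ => ?_
  rcases h.ent i j with e | e | e <;> simp [e]

lemma HadOn.isW (h : HadOn I) : ∃ H : Matrix I I ℤ, IsW H (Fintype.card I) ∧ ∀ i j, |H i j| = 1 := by
  obtain ⟨H, h1, h2⟩ := h
  refine ⟨H, ?_, fun i j => by rcases h1 i j with e | e <;> simp [e]⟩
  rcases Nat.eq_zero_or_pos (Fintype.card I) with h0 | h0
  · have : IsEmpty I := Fintype.card_eq_zero_iff.1 h0
    exact ⟨fun i => isEmptyElim i, Subsingleton.elim _ _, Subsingleton.elim _ _⟩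
  · exact IsW.of_row h0 (fun i j => Or.inr (h1 i j)) h2

end

/-- a weighing matrix of order `n` and weight `w` exists -/
def WM (n w : ℕ) : Prop := ∃ Y : Matrix (Fin n) (Fin n) ℤ, IsW Y w

lemma WM.of_card {I : Type} [Fintype I] [DecidableEq I] {Y : Matrix I I ℤ} {n w : ℕ}
    (h : IsW Y w) (hn : Fintype.card I = n) : WM n w :=
  ⟨_, h.submatrix (Fintype.equivFinOfCardEq hn).symm (Fintype.equivFinOfCardEq hn).symm⟩

lemma had_paley {p : ℕ} (hp : p.Prime) (h3 : p % 4 = 3) : HadOn (Fin (p + 1)) := by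
  obtain ⟨H, h1, h2⟩ := H14.paley hp h3
  exact ⟨H, h1, by rw [Fintype.card_fin]; exact h2⟩

/-- the conference matrix of a finite field of odd order -/
theorem conf (F : Type) [Field F] [Fintype F] [DecidableEq F] (hF : ringChar F ≠ 2) :
    ∃ C : Matrix (Option F) (Option F) ℤ, IsW C (Fintype.card F) ∧
      ∀ i j, |C i j| = if i = j then 0 else 1 := by
  let χ := quadraticChar F
  have hsum : ∑ a, χ a = 0 := quadraticChar_sum_zero hF
  have hsum' : ∀ x : F, ∑ z, χ (x - z) = 0 := fun x => by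
    rw [← hsum]
    exact Equiv.sum_comp (Equiv.subLeft x) (fun a => χ a)
  have hcore : ∀ x y : F, ∑ z, χ (x - z) * χ (y - z) =
      (if x = y then (Fintype.card F : ℤ) else 0) - 1 := by
    intro x y
    split_ifs with hxy
    · subst hxy
      have : ∀ z, χ (x - z) * χ (x - z) = 1 - if z = x then 1 else 0 := by
        intro z
        split_ifs with hz
        · simp [hz, χ.map_zero]
        · rw [← sq, quadraticChar_sq_one (sub_ne_zero.2 (Ne.symm hz)), sub_zero]
      simp only [this, Finset.sum_sub_distrib, Finset.sum_const, Finset.card_univ,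
        nsmul_eq_mul, mul_one, Finset.sum_ite_eq', Finset.mem_univ, if_true]
    · have hd : x - y ≠ 0 := sub_ne_zero.2 hxy
      have e1 : ∀ z, χ (x - z) * χ (y - z) =
          χ (1 + (x - y) * (y - z)⁻¹) - if z = y then 1 else 0 := by
        intro z
        split_ifs with hz
        · simp [hz, χ.map_zero]
        · have h0 : y - z ≠ 0 := sub_ne_zero.2 (Ne.symm hz)
          have h1 : x - z = (1 + (x - y) * (y - z)⁻¹) * (y - z) := by field_simp; ring
          rw [sub_zero]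
          conv_lhs => rw [h1, map_mul, mul_assoc, ← sq, quadraticChar_sq_one h0, mul_one]
      simp only [e1, Finset.sum_sub_distrib, Finset.sum_ite_eq', Finset.mem_univ, if_true]
      congr 1
      rw [← hsum]
      exact Equiv.sum_comp ((Equiv.subLeft y).trans ((Equiv.inv F).trans
        ((Equiv.mulLeft₀ (x - y) hd).trans (Equiv.addLeft 1)))) (fun a => χ a)
  let Z : Matrix (Option F) (Option F) ℤ := Matrix.of fun x y =>
    x.elim (y.elim 0 fun _ => 1) fun a => y.elim 1 fun b => χ (a - b)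
  have habs : ∀ i j, |Z i j| = if i = j then 0 else 1 := by
    rintro (_ | x) (_ | y)
    · simp [Z]
    · simp [Z]
    · simp [Z]
    · by_cases h : x = y
      · simp [Z, h, χ.map_zero]
      · have e0 : Z (some x) (some y) = quadraticChar F (x - y) := rfl
        rcases quadraticChar_dichotomy (sub_ne_zero.2 h) with e | e <;> rw [e0, e] <;> simp [h]
  refine ⟨Z, IsW.of_row Fintype.card_pos (fun i j => ?_) ?_, habs⟩
  · have := habs i j
    split_ifs at this
    · exact Or.inl (abs_eq_zero.1 this)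
    · exact Or.inr ((abs_eq zero_le_one).1 this)
  · ext (_ | x) (_ | y)
    · simp [Z, Matrix.mul_apply, Fintype.sum_option]
    · simpa [Z, Matrix.mul_apply, Fintype.sum_option] using hsum' y
    · simpa [Z, Matrix.mul_apply, Fintype.sum_option] using hsum' x
    · have := hcore x y
      simp only [Z, Matrix.mul_apply, Fintype.sum_option, transpose_apply, Matrix.of_apply,
        Option.elim, this, Matrix.smul_apply, Matrix.one_apply, Option.some.injEq, smul_eq_mul]
      split_ifs <;> ring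

end

section

open Matrix
open scoped Kronecker

lemma small_mul {I : Type} [Fintype I] [DecidableEq I] {P Q : Matrix I I ℤ} {a b : ℕ}
    (h : IsW P a) (h' : IsW Q b)
    (hu : ∀ x y w w', P x w ≠ 0 → Q w y ≠ 0 → P x w' ≠ 0 → Q w' y ≠ 0 → w' = w) :
    IsW (P * Q) (a * b) := by
  refine ⟨fun x y => ?_, ?_, ?_⟩
  · rw [Matrix.mul_apply]
    by_cases h0 : ∃ w, P x w ≠ 0 ∧ Q w y ≠ 0
    · obtain ⟨w, h1, h2⟩ := h0
      rw [Finset.sum_eq_single w (fun w' _ hw => by
        by_contra hn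
        exact hw (hu x y w w' h1 h2 (left_ne_zero_of_mul hn) (right_ne_zero_of_mul hn)))
        (by simp)]
      rcases h.ent x w with e | e | e <;> rcases h'.ent w y with e' | e' | e' <;> simp [e, e']
    · refine Or.inl (Finset.sum_eq_zero fun w _ => ?_)
      by_contra hn
      exact h0 ⟨w, left_ne_zero_of_mul hn, right_ne_zero_of_mul hn⟩
  · rw [transpose_mul, Matrix.mul_assoc, ← Matrix.mul_assoc Q, h'.row, Matrix.smul_mul,
      Matrix.one_mul, Matrix.mul_smul, h.row, smul_smul, Nat.cast_mul, mul_comm]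
  · rw [transpose_mul, Matrix.mul_assoc, ← Matrix.mul_assoc Pᵀ, h.col, Matrix.smul_mul,
      Matrix.one_mul, Matrix.mul_smul, h'.col, smul_smul, Nat.cast_mul]

/-- the shift -/
def smallShift (c : Bool) : ZMod 3 := if c then 1 else 0

/-- exchange of two coordinates together with the shift -/
def smallEquiv (u v : ℕ) :
    (Bool × Fin u) × (Fin v × ZMod 3) ≃ (Bool × Fin v) × (Fin u × ZMod 3) where
  toFun w := ((w.1.1, w.2.1), (w.1.2, w.2.2 + smallShift w.1.1))
  invFun w := ((w.1.1, w.2.1), (w.1.2, w.2.2 - smallShift w.1.1))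
  left_inv w := by simp
  right_inv w := by simp

/-- Free product. -/
lemma WM.free {u v a b : ℕ} (h : WM (2 * u) a) (h' : WM (2 * v) b) :
    WM (2 * (3 * u * v)) (a * b) := by
  obtain ⟨A, hA⟩ := h
  obtain ⟨B, hB⟩ := h'
  have e1 : Bool × Fin u ≃ Fin (2 * u) := Fintype.equivFinOfCardEq (by simp)
  have e2 : Bool × Fin v ≃ Fin (2 * v) := Fintype.equivFinOfCardEq (by simp)
  have k1 := (hA.submatrix e1 e1).kron (IsW.one (I := Fin v × ZMod 3))
  have k2 := ((hB.submatrix e2 e2).kron (IsW.one (I := Fin u × ZMod 3))).submatrix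
    (smallEquiv u v) (smallEquiv u v)
  have k := small_mul k1 k2 (by
    rintro x y ⟨⟨c, i⟩, j, z⟩ ⟨⟨c', i'⟩, j', z'⟩ h1 h2 h3 h4
    have a1 := Matrix.one_apply_ne.mt (right_ne_zero_of_mul h1)
    have a2 := Matrix.one_apply_ne.mt (right_ne_zero_of_mul h2)
    have a3 := Matrix.one_apply_ne.mt (right_ne_zero_of_mul h3)
    have a4 := Matrix.one_apply_ne.mt (right_ne_zero_of_mul h4)
    rw [not_ne_iff] at a1 a2 a3 a4
    have b1 : (j, z) = (j', z') := a1.symm.trans a3
    have b2 : (i, z + smallShift c) = (i', z' + smallShift c') := a2.trans a4.symm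
    obtain ⟨rfl, rfl⟩ := Prod.mk.inj b1
    obtain ⟨rfl, b3⟩ := Prod.mk.inj b2
    have b4 := add_left_cancel b3
    obtain rfl : c = c' := by
      revert b4
      cases c <;> cases c' <;> simp [smallShift]
    rfl)
  rw [mul_one, mul_one] at k
  exact WM.of_card k (by simp; ring)

lemma WM_six : WM 6 4 :=
  ⟨!![0, 1, 1, 0, 1, -1; 1, 0, 1, -1, 0, 1; 1, 1, 0, 1, -1, 0;
      0, 1, -1, 0, 1, 1; -1, 0, 1, 1, 0, 1; 1, -1, 0, 1, 1, 0],
    IsW.of_row (by norm_num) (fun i j => by fin_cases i <;> fin_cases j <;> simp) (by decide)⟩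

lemma WM_prime_sq {p : ℕ} (hp : p.Prime) :
    ∃ u, u % 2 = 1 ∧ 3 * u ≤ p ^ 4 ∧ WM (2 * u) (p ^ 2) := by
  rcases hp.eq_two_or_odd' with rfl | ⟨k, hk⟩
  · exact ⟨3, rfl, by norm_num, WM_six⟩
  · classical
    have : Fact p.Prime := ⟨hp⟩
    let _ := Fintype.ofFinite (GaloisField p 2)
    have hc : Fintype.card (GaloisField p 2) = p ^ 2 := by
      rw [← Nat.card_eq_fintype_card, GaloisField.card p 2 (by norm_num)]
    obtain ⟨C, hC, -⟩ := conf (GaloisField p 2) (by rw [ringChar.eq _ p]; omega)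
    rw [hc] at hC
    have h2 := hp.two_le
    refine ⟨2 * (k * k + k) + 1, by omega, ?_, WM.of_card hC (by
      rw [Fintype.card_option, hc, hk]; ring)⟩
    have h3 : 1 ≤ k := by omega
    subst hk
    nlinarith [Nat.zero_le (k ^ 4), Nat.zero_le (k ^ 3), Nat.zero_le (k ^ 2)]

lemma WM_sq {a : ℕ} (ha : 0 < a) : ∃ u, u % 2 = 1 ∧ u ≤ a ^ 4 ∧ WM (2 * u) (a ^ 2) := by
  induction a using induction_on_primes with
  | zero => exact absurd ha (lt_irrefl 0)
  | one => exact ⟨1, rfl, le_rfl, 1, IsW.one⟩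
  | prime_mul p a hp ih =>
    obtain ⟨u, h1, h2, h3⟩ := WM_prime_sq hp
    obtain ⟨v, k1, k2, k3⟩ := ih (Nat.pos_of_mul_pos_left ha)
    refine ⟨3 * u * v, by simp [Nat.mul_mod, h1, k1], ?_, ?_⟩
    · rw [mul_pow]; exact Nat.mul_le_mul h2 k2
    · rw [mul_pow]; exact h3.free k3

lemma WM.add {m n a b : ℕ} (h : WM m a) (h' : WM n b) : WM (2 * m * n) (a + b) := by
  obtain ⟨A, hA⟩ := h
  obtain ⟨B, hB⟩ := h'
  exact WM.of_card (hA.sum hB) (by simp; ring)

theorem small {d : ℕ} (hd : 0 < d) : ∃ u, u % 2 = 1 ∧ u ≤ d ^ 8 ∧ WM (128 * u) d := by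
  have key : ∀ a, a ^ 2 ≤ d → ∃ u, u % 2 = 1 ∧ u ≤ d ^ 2 ∧ WM (2 * u) (a ^ 2) := by
    intro a ha
    rcases Nat.eq_zero_or_pos a with rfl | h0
    · exact ⟨1, rfl, Nat.one_le_pow _ _ hd, 0, IsW.zero⟩
    · obtain ⟨u, h1, h2, h3⟩ := WM_sq h0
      refine ⟨u, h1, h2.trans ?_, h3⟩
      calc a ^ 4 = (a ^ 2) ^ 2 := by ring
        _ ≤ _ := Nat.pow_le_pow_left ha 2
  obtain ⟨a, b, c, e, h⟩ := Nat.sum_four_squares d
  obtain ⟨u1, a1, a2, a3⟩ := key a (by omega)
  obtain ⟨u2, b1, b2, b3⟩ := key b (by omega)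
  obtain ⟨u3, c1, c2, c3⟩ := key c (by omega)
  obtain ⟨u4, e1, e2, e3⟩ := key e (by omega)
  refine ⟨u1 * u2 * (u3 * u4), by simp [Nat.mul_mod, a1, b1, c1, e1], ?_, ?_⟩
  · calc _ ≤ d ^ 2 * d ^ 2 * (d ^ 2 * d ^ 2) := by gcongr
      _ = _ := by ring
  · convert (a3.add b3).add (c3.add e3) using 1
    · ring
    · omega

end

end Pool.Agent.MP_d8b1b3_co.H68
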