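import Mathlib
import Pool.Agent.MP_d8b1b3_co.H68.Weigh

/-!
Tiles: weighing matrices with exactly one nonzero entry over each cell of a grid, their assembly
from the stars of the rows, and the pieces whose stars are known.
-/

set_option autoImplicit false

namespace Pool.Agent.MP_d8b1b3_co.H68

section

open Matrix Finset
open scoped Kronecker

/-- exactly one nonzero entry over each cell -/
def Cell {I A B : Type} [Fintype I] [DecidableEq A] [DecidableEq B] (Y : Matrix I I ℤ)
    (π : I → A) (σ : I → B) : Prop :=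
  ∀ x y, ∑ i, ∑ j, (if π i = x ∧ σ j = y then |Y i j| else 0) = 1

/-- a tile of weight `W` on a grid with `a` rows and `b` columns -/
def Tile (W a b : ℕ) : Prop :=
  ∃ (I : Type) (_ : Fintype I) (_ : DecidableEq I) (Y : Matrix I I ℤ) (π : I → Fin a)
    (σ : I → Fin b), IsW Y W ∧ Cell Y π σ

lemma Tile.of_card {I A B : Type} [Fintype I] [DecidableEq I] [Fintype A] [DecidableEq A]
    [Fintype B] [DecidableEq B] {Y : Matrix I I ℤ} {π : I → A} {σ : I → B} {W a b : ℕ}
    (h : IsW Y W) (hc : Cell Y π σ) (ha : Fintype.card A = a) (hb : Fintype.card B = b) :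
    Tile W a b := by
  let e := Fintype.equivFinOfCardEq ha
  let f := Fintype.equivFinOfCardEq hb
  refine ⟨I, inferInstance, inferInstance, Y, fun i => e (π i), fun j => f (σ j), h,
    fun x y => ?_⟩
  simp only [← Equiv.eq_symm_apply]
  exact hc _ _

lemma Cell.transpose {I A B : Type} [Fintype I] [DecidableEq A] [DecidableEq B]
    {Y : Matrix I I ℤ} {π : I → A} {σ : I → B} (h : Cell Y π σ) : Cell Yᵀ σ π := by
  intro y x
  rw [sum_comm, ← h x y]
  simp only [transpose_apply, and_comm]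

lemma Tile.transpose {W a b : ℕ} (h : Tile W a b) : Tile W b a := by
  obtain ⟨I, _, _, Y, π, σ, h1, h2⟩ := h
  exact ⟨I, _, _, Yᵀ, σ, π, h1.transpose, h2.transpose⟩

lemma Tile.zero (W a : ℕ) : Tile W a 0 :=
  ⟨Empty, _, _, 0, Empty.elim, Empty.elim,
    ⟨fun i => i.elim, Subsingleton.elim _ _, Subsingleton.elim _ _⟩, fun _ y => y.elim0⟩

lemma Tile.add {W a b b' : ℕ} (h : Tile W a b) (h' : Tile W a b') : Tile W a (b + b') := by
  obtain ⟨I, _, _, Y, π, σ, h1, h2⟩ := h
  obtain ⟨I', _, _, Y', π', σ', h1', h2'⟩ := h'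
  refine Tile.of_card (π := Sum.elim π π') (σ := Sum.map σ σ') (h1.blocks h1') ?_ (by simp)
    (by simp)
  rintro x (y | y)
  · simpa [Fintype.sum_sum_type] using h2 x y
  · simpa [Fintype.sum_sum_type] using h2' x y

lemma Tile.mul_right {W a b : ℕ} (h : Tile W a b) (n : ℕ) : Tile W a (n * b) := by
  induction n with
  | zero => rw [zero_mul]; exact Tile.zero W a
  | succ n ih => rw [Nat.succ_mul]; exact ih.add h

lemma Tile.mul_left {W a b : ℕ} (h : Tile W a b) (n : ℕ) : Tile W (n * a) b :=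
  (h.transpose.mul_right n).transpose

lemma sum_sign {K : Type} [Fintype K] (f : K → ℤ) (h : ∑ k, |f k| = 1) :
    ∑ k, f k = 1 ∨ ∑ k, f k = -1 := by
  refine ((H14.Dom.sum univ (f := f) (m := fun k => |f k|) fun k => ⟨le_rfl, ?_⟩).congr h).sign
  rcases abs_choice (f k) with e | e <;> rw [e] <;> simp

section

variable {I A B : Type} [Fintype I] [DecidableEq I] [Fintype A] [DecidableEq A] [Fintype B]
  [DecidableEq B]

omit [Fintype A] in
lemma fibre_card {Y : Matrix I I ℤ} {π : I → A} {σ : I → B} {W β : ℕ} (hW : 0 < W)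
    (h : IsW Y W) (hc : Cell Y π σ) (hb : Fintype.card B = β * W) (x : A) :
    Fintype.card {i // π i = x} = β := by
  have h1 : ∑ y, ∑ i, ∑ j, (if π i = x ∧ σ j = y then |Y i j| else 0) = ((β * W : ℕ) : ℤ) := by
    simp only [hc x, sum_const, card_univ, hb, nsmul_eq_mul, mul_one]
  have h2 : ∀ i, ∑ y, ∑ j, (if π i = x ∧ σ j = y then |Y i j| else 0) =
      if π i = x then (W : ℤ) else 0 := by
    intro i
    rw [sum_comm]
    split_ifs with hi
    · simp [hi, h.sum_abs i]
    · simp [hi]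
  rw [sum_comm] at h1
  simp only [h2] at h1
  rw [← sum_filter, sum_const, nsmul_eq_mul, ← Fintype.card_subtype] at h1
  have h3 : Fintype.card {i // π i = x} * W = β * W := by exact_mod_cast h1
  exact Nat.eq_of_mul_eq_mul_right hW h3

lemma block_had {π : I → A} {β : ℕ} (hπ : ∀ x, Fintype.card {i // π i = x} = β)
    (hβ : HadOn (Fin β)) : Fintype.card I = Fintype.card A * β ∧
    ∃ L : Matrix I I ℤ, IsW L β ∧ ∀ i i', |L i i'| = if π i = π i' then 1 else 0 := by
  have hc : ∀ x : A, Fintype.card {p : A × Fin β // p.1 = x} = β := fun x => by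
    rw [Fintype.card_congr (show {p : A × Fin β // p.1 = x} ≃ Fin β from
      ⟨fun p => p.1.2, fun b => ⟨(x, b), rfl⟩, fun p => Subtype.ext (Prod.ext p.2.symm rfl),
        fun _ => rfl⟩), Fintype.card_fin]
  let e : I ≃ A × Fin β := Equiv.ofFiberEquiv (f := π) (g := Prod.fst) fun x =>
    Fintype.equivOfCardEq ((hπ x).trans (hc x).symm)
  have he : ∀ i, (e i).1 = π i := fun i => Equiv.ofFiberEquiv_map _ i
  obtain ⟨H, h1, h2⟩ := HadOn.isW hβ
  refine ⟨by rw [Fintype.card_congr e]; simp, ((1 : Matrix A A ℤ) ⊗ₖ H).submatrix e e, ?_,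
    fun i i' => ?_⟩
  · have := (IsW.one.kron h1).submatrix e e
    rwa [one_mul, Fintype.card_fin] at this
  · rw [submatrix_apply, kronecker_apply, abs_mul, h2, he, he, Matrix.one_apply]
    split_ifs <;> simp

end

theorem Tile.had {W α β : ℕ} (h : Tile W (α * W) (β * W)) (hW : 0 < W) (hα : HadOn (Fin α))
    (hβ : HadOn (Fin β)) : HadOn (Fin (α * β * W)) := by
  obtain ⟨I, _, _, Y, π, σ, h1, h2⟩ := h
  obtain ⟨hc, L, l1, l2⟩ := block_had (fibre_card hW h1 h2 (Fintype.card_fin _)) hβ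
  obtain ⟨-, R, r1, r2⟩ :=
    block_had (fibre_card hW h1.transpose h2.transpose (Fintype.card_fin _)) hα
  rw [Fintype.card_fin] at hc
  have hI : HadOn I := by
    refine ⟨L * Y * R, fun i j => ?_, ?_⟩
    · have e : (L * Y * R) i j = ∑ p : I × I, L i p.1 * Y p.1 p.2 * R p.2 j := by
        simp only [Matrix.mul_apply, sum_mul, Fintype.sum_prod_type]
        rw [sum_comm]
      rw [e]
      apply sum_sign
      rw [← h2 (π i) (σ j), Fintype.sum_prod_type]
      refine sum_congr rfl fun i' _ => sum_congr rfl fun j' _ => ?_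
      rw [abs_mul, abs_mul, l2, r2]
      by_cases a : π i = π i' <;> by_cases b : σ j' = σ j <;> simp [a, b, eq_comm]
    · rw [transpose_mul, transpose_mul, Matrix.mul_assoc, ← Matrix.mul_assoc R, r1.row,
        Matrix.smul_mul, Matrix.one_mul, Matrix.mul_smul, Matrix.mul_assoc, ← Matrix.mul_assoc Y,
        h1.row, Matrix.smul_mul, Matrix.one_mul, Matrix.mul_smul, l1.row, smul_smul, smul_smul, hc]
      congr 1
  exact hI.of_card (by rw [Fintype.card_fin, hc]; ring)

section

variable {X : Type} [DecidableEq X]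

/-- the indicator function of a point -/
def pt (x : X) : X → ℤ := fun y => if x = y then 1 else 0

/-- the star of a row -/
def star {I : Type} [Fintype I] (Y : Matrix I I ℤ) (σ : I → X) (i : I) : X → ℤ :=
  ∑ j, |Y i j| • pt (σ j)

variable (X)

/-- the multisets of stars of the weighing matrices of weight `W` -/
def St (W : ℕ) : AddSubmonoid (Multiset (X → ℤ)) where
  carrier := {μ | ∃ (I : Type) (_ : Fintype I) (_ : DecidableEq I) (Y : Matrix I I ℤ)
    (σ : I → X), IsW Y W ∧ μ = ∑ i, {star Y σ i}}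
  zero_mem' := ⟨Empty, _, _, 0, Empty.elim,
    ⟨fun i => i.elim, Subsingleton.elim _ _, Subsingleton.elim _ _⟩, by simp⟩
  add_mem' := by
    rintro _ _ ⟨I, _, _, Y, σ, h1, rfl⟩ ⟨I', _, _, Y', σ', h1', rfl⟩
    refine ⟨I ⊕ I', _, _, _, Sum.elim σ σ', h1.blocks h1', ?_⟩
    simp [Fintype.sum_sum_type, star]

omit [DecidableEq X] in
/-- multisets that split into `n` groups, each adding up to the constant one -/
def Rows : AddSubmonoid (ℕ × Multiset (X → ℤ)) where
  carrier := {p | ∃ (A : Type) (_ : Fintype A) (ρ : A → Multiset (X → ℤ)),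
    Fintype.card A = p.1 ∧ p.2 = ∑ a, ρ a ∧ ∀ a, (ρ a).sum = 1}
  zero_mem' := ⟨Empty, inferInstance, Empty.elim, by simp, by simp, fun a => a.elim⟩
  add_mem' := by
    rintro ⟨n, μ⟩ ⟨n', μ'⟩ ⟨A, _, ρ, h1, h2, h3⟩ ⟨A', _, ρ', h1', h2', h3'⟩
    refine ⟨A ⊕ A', inferInstance, Sum.elim ρ ρ', ?_, ?_, ?_⟩
    · rw [Fintype.card_sum, h1, h1']; rfl
    · rw [Fintype.sum_sum_type, Prod.snd_add, h2, h2']; rfl
    · rintro (a | a)
      exacts [h3 a, h3' a]

variable {X}

omit [DecidableEq X] in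
lemma Rows.one {ρ : Multiset (X → ℤ)} (h : ρ.sum = 1) : (1, ρ) ∈ Rows X :=
  ⟨Unit, inferInstance, fun _ => ρ, by simp, by simp, fun _ => h⟩

lemma exists_equiv_of_sum_eq {I J V : Type} [Fintype I] [Fintype J] (s : I → V) (s' : J → V)
    (h : ∑ i, ({s i} : Multiset V) = ∑ j, {s' j}) : ∃ e : I ≃ J, ∀ i, s' (e i) = s i := by
  classical
  have key : ∀ v, Fintype.card {i // s i = v} = Fintype.card {j // s' j = v} := fun v => by
    have := congrArg (Multiset.count v) h
    simp only [Multiset.count_sum', Multiset.count_singleton, eq_comm (a := v)] at this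
    simpa [Fintype.card_subtype] using this
  exact ⟨Equiv.ofFiberEquiv fun v => Fintype.equivOfCardEq (key v),
    fun i => Equiv.ofFiberEquiv_map _ i⟩

theorem tile_of [Fintype X] {W n : ℕ} {μ : Multiset (X → ℤ)} (h : μ ∈ St X W)
    (h' : (n, μ) ∈ Rows X) : Tile W n (Fintype.card X) := by
  classical
  obtain ⟨I, _, _, Y, σ, h1, h2⟩ := h
  obtain ⟨A, _, ρ, h3, h4, h5⟩ := h'
  have h6 : ∑ i, ({star Y σ i} : Multiset (X → ℤ)) =
      ∑ j : (Σ a, (ρ a).ToType), {(j.2 : X → ℤ)} := by
    rw [← h2, Fintype.sum_sigma]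
    refine h4.trans (sum_congr rfl fun a _ => ?_)
    rw [Finset.sum_eq_multiset_sum, Multiset.map_univ (ρ a) fun v => ({v} : Multiset (X → ℤ)),
      Multiset.sum_map_singleton]
  obtain ⟨e, he⟩ := exists_equiv_of_sum_eq _ _ h6
  refine Tile.of_card (π := fun i => (e i).1) (σ := σ) h1 (fun x y => ?_) h3 rfl
  have h7 : ∀ i, ∑ j, (if (e i).1 = x ∧ σ j = y then |Y i j| else 0) =
      if (e i).1 = x then ((e i).2 : X → ℤ) y else 0 := by
    intro i
    rw [he i]
    split_ifs with hi
    · simp [hi, star, pt, Finset.sum_apply]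
    · simp [hi]
  simp only [h7]
  rw [Equiv.sum_comp e (fun j => if j.1 = x then (j.2 : X → ℤ) y else 0), Fintype.sum_sigma]
  simp only [sum_ite_irrel, sum_const_zero, sum_ite_eq', mem_univ, if_true]
  have := congrFun (h5 x) y
  rw [Multiset.sum_eq_sum_coe, Finset.sum_apply] at this
  exact this

/-- doubling of a star -/
def dbl (X : Type) : (X → ℤ) →+ (X × Bool → ℤ) where
  toFun f := fun p => f p.1
  map_zero' := rfl
  map_add' _ _ := rfl

lemma dbl_pt (x : X) : dbl X (pt x) = ∑ c, pt (x, c) := by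
  ext ⟨y, d⟩
  rw [Fintype.sum_bool]
  cases d <;> simp [dbl, pt]

/-- doubling of a multiset of stars -/
def dd (X : Type) : Multiset (X → ℤ) →+ Multiset (X × Bool → ℤ) :=
  2 • Multiset.mapAddMonoidHom (dbl X)

omit [DecidableEq X] in
lemma dd_single (f : X → ℤ) : dd X {f} = 2 • {dbl X f} := by
  simp [dd]

/-- the multisets whose double is a multiset of stars -/
def Pw (X : Type) [DecidableEq X] (w : ℕ) : AddSubmonoid (Multiset (X → ℤ)) :=
  (St (X × Bool) (2 * w)).comap (dd X)

lemma isW_H2 : IsW H2 2 := by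
  refine IsW.of_row two_pos (fun i j => ?_) (by rw [H2_tr, H2_mul]; rfl)
  unfold H2; split_ifs <;> simp

lemma St.dbl {w : ℕ} {μ : Multiset (X → ℤ)} (h : μ ∈ St X w) : μ ∈ Pw X w := by
  obtain ⟨I, _, _, Y, σ, h1, rfl⟩ := h
  refine ⟨I × Bool, _, _, Y ⊗ₖ H2, fun p => (σ p.1, p.2), by rw [mul_comm]; exact h1.kron isW_H2,
    ?_⟩
  have e : ∀ p : I × Bool, star (Y ⊗ₖ H2) (fun p => (σ p.1, p.2)) p = H68.dbl X (star Y σ p.1) := by
    intro p
    simp only [star, map_sum, map_zsmul, dbl_pt, Fintype.sum_prod_type, smul_sum]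
    refine sum_congr rfl fun j _ => sum_congr rfl fun c _ => ?_
    have : |H2 p.2 c| = 1 := by unfold H2; split_ifs <;> simp
    have e : (Y ⊗ₖ H2) p (j, c) = Y p.1 j * H2 p.2 c := rfl
    rw [e, abs_mul, this, mul_one]
  simp only [e, map_sum, dd_single, Fintype.sum_prod_type, sum_const, card_univ, Fintype.card_bool]

theorem tile_of_Pw [Fintype X] {w n : ℕ} {μ : Multiset (X → ℤ)} (h : μ ∈ Pw X w)
    (h' : (n, μ) ∈ Rows X) : Tile (2 * w) (2 * n) (2 * Fintype.card X) := by
  have h1 : (n, μ.map (dbl X)) ∈ Rows (X × Bool) := by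
    obtain ⟨A, _, ρ, h3, h4, h5⟩ := h'
    refine ⟨A, _, fun a => (ρ a).map (dbl X), h3, ?_, fun a => ?_⟩
    · simp only at h4 ⊢
      rw [h4]
      exact map_sum (Multiset.mapAddMonoidHom (dbl X)) _ _
    · rw [← map_multiset_sum, h5]; rfl
  have h2 := tile_of (n := 2 * n) h ((Rows (X × Bool)).nsmul_mem h1 2)
  rwa [Fintype.card_prod, Fintype.card_bool, mul_comm _ 2] at h2

end

end

section

open Matrix Finset
open scoped Kronecker

variable {X : Type} [DecidableEq X]

lemma rowOK_ent {I : Type} [DecidableEq I] {c : I → Bool} {A : Matrix I I ℤ} (h : RowOK c A)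
    (i j : I) : A i j = 0 ∨ A i j = 1 ∨ A i j = -1 := by
  obtain ⟨k, ε, hε, -, hA⟩ := h i (c j)
  rw [hA j rfl]
  split_ifs
  · exact Or.inr hε
  · exact Or.inl rfl

lemma rowOK_sum {K : Type} [Fintype K] [DecidableEq K] {A : Matrix (Bool × K) (Bool × K) ℤ}
    (h : RowOK Prod.fst A) (i : Bool × K) (c : Bool) : ∑ k, |A i (c, k)| = 1 := by
  obtain ⟨⟨c', k⟩, ε, hε, hc, hA⟩ := h i c
  obtain rfl : c' = c := hc
  rw [sum_eq_single k]
  · rw [hA _ rfl, if_pos rfl]
    rcases hε with rfl | rfl <;> simp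
  · intro k' _ hk
    rw [hA _ rfl, if_neg (by simpa using hk), abs_zero]
  · simp

lemma G_piece {t w n : ℕ} [NeZero n] (h : G t w) (hw : 0 < w) (hn : w ≤ n) (φ : ZMod n → X) :
    2 ^ t • ∑ a : ZMod n, ({∑ b, if (b - a).val < w then pt (φ b) else 0} : Multiset (X → ℤ)) ∈
      Pw X w := by
  obtain ⟨M, hM⟩ := h
  let Q : ℕ → Matrix (Bool × Fin (2 ^ t)) (Bool × Fin (2 ^ t)) ℤ :=
    fun s => if s < w then M s else 0
  have hQ : ∀ (R : Type) [CommRing R] (u : R), ev Q n u = ev M w u := by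
    intro R _ u
    ext i j
    rw [ev_apply, ev_apply, ← sum_subset (range_subset_range.2 hn)]
    · refine sum_congr rfl fun s hs => ?_
      simp only [Q, if_pos (mem_range.1 hs)]
    · intro s _ hs
      simp [Q, if_neg (mem_range.not.1 hs)]
  have hY := periodize (n := n) (N := 2 * w) (Q := Q) fun R _ u v huv => by
    rw [hQ, hQ]; exact (hM.pu R u v huv).1
  refine ⟨ZMod n × (Bool × Fin (2 ^ t)), _, _, _, fun q => (φ q.1, q.2.1),
    IsW.of_row (by omega) (fun p q => ?_) hY, ?_⟩
  · simp only [Matrix.of_apply, Q]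
    split_ifs with hs
    · exact rowOK_ent (hM.ok _ hs).1 _ _
    · exact Or.inl rfl
  · have e : ∀ p : ZMod n × (Bool × Fin (2 ^ t)),
        star (Matrix.of fun (p q : ZMod n × (Bool × Fin (2 ^ t))) => Q (q.1 - p.1).val p.2 q.2)
          (fun q => (φ q.1, q.2.1)) p =
        dbl X (∑ b, if (b - p.1).val < w then pt (φ b) else 0) := by
      intro p
      simp only [star, map_sum, Fintype.sum_prod_type, Matrix.of_apply, ← sum_smul, Q]
      refine sum_congr rfl fun b _ => ?_
      split_ifs with hs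
      · simp only [rowOK_sum (hM.ok _ hs).1, one_smul, dbl_pt]
      · simp
    simp only [e]
    rw [map_nsmul, map_sum, Fintype.sum_prod_type, smul_sum]
    refine sum_congr rfl fun a _ => ?_
    rw [dd_single, smul_smul, mul_comm]
    refine Eq.trans ?_ (sum_const (s := (univ : Finset (Bool × Fin (2 ^ t))))
      ({dbl X (∑ b, if (b - a).val < w then pt (φ b) else 0)} : Multiset _)).symm
    rw [card_univ, Fintype.card_prod, Fintype.card_bool, Fintype.card_fin]

/-- plain stars -/
lemma G_plain {t w : ℕ} (h : G t w) (hw : 0 < w) {D : Type} [Fintype D]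
    (hD : Fintype.card D = w) (φ : D → X) :
    (2 ^ t * w) • ({∑ d, pt (φ d)} : Multiset (X → ℤ)) ∈ Pw X w := by
  have : NeZero w := ⟨hw.ne'⟩
  let e : ZMod w ≃ D := Fintype.equivOfCardEq (by rw [ZMod.card, hD])
  have := G_piece h hw le_rfl (fun b => φ (e b))
  simp only [ZMod.val_lt, if_true, sum_const, card_univ, ZMod.card, smul_smul] at this
  rwa [Equiv.sum_comp e fun d => pt (φ d)] at this

/-- stars with one point removed -/
lemma G_minus {t w : ℕ} (h : G t w) (hw : 0 < w) {D : Type} [Fintype D]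
    (hD : Fintype.card D = w + 1) (φ : D → X) :
    2 ^ t • ∑ d, ({∑ d', pt (φ d') - pt (φ d)} : Multiset (X → ℤ)) ∈ Pw X w := by
  let e : ZMod (w + 1) ≃ D := Fintype.equivOfCardEq (by rw [ZMod.card, hD])
  have h1 := G_piece (n := w + 1) h hw (Nat.le_succ w) (fun b => φ (e b))
  have h2 : ∀ a : ZMod (w + 1), (∑ b, if (b - a).val < w then pt (φ (e b)) else 0) =
      ∑ d', pt (φ d') - pt (φ (e (a - 1))) := by
    intro a
    rw [← Equiv.sum_comp e fun d => pt (φ d), eq_sub_iff_add_eq,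
      ← sum_ite_eq_of_mem' univ (a - 1) (fun b => pt (φ (e b))) (mem_univ _), ← sum_add_distrib]
    refine sum_congr rfl fun b _ => ?_
    have h3 : (b - a).val < w ↔ b ≠ a - 1 := by
      have h4 := ZMod.val_lt (b - a)
      have h5 : (-1 : ZMod (w + 1)).val = w := ZMod.val_neg_one w
      constructor
      · rintro h6 rfl
        rw [show a - 1 - a = -1 by ring, h5] at h6
        exact lt_irrefl _ h6
      · intro h6
        by_contra h7
        apply h6
        have : b - a = -1 := ZMod.val_injective _ (by omega)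
        linear_combination this
    by_cases hb : b = a - 1 <;> simp [h3, hb]
  simp only [h2] at h1
  rw [← Equiv.sum_comp ((Equiv.subRight (1 : ZMod (w + 1))).trans e)
    fun d => ({∑ d', pt (φ d') - pt (φ d)} : Multiset (X → ℤ))]
  exact h1

/-- the stars of a conference matrix -/
lemma conf_piece (F : Type) [Field F] [Fintype F] [DecidableEq F] (hF : ringChar F ≠ 2)
    {D : Type} [Fintype D] (hD : Fintype.card D = Fintype.card F + 1) (φ : D → X) :
    ∑ d, ({∑ d', pt (φ d') - pt (φ d)} : Multiset (X → ℤ)) ∈ St X (Fintype.card F) := by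
  let e : Option F ≃ D := Fintype.equivOfCardEq (by rw [Fintype.card_option, hD])
  obtain ⟨C, h1, h2⟩ := conf F hF
  refine ⟨Option F, _, _, C, fun j => φ (e j), h1, ?_⟩
  rw [← Equiv.sum_comp e]
  refine sum_congr rfl fun i _ => ?_
  congr 1
  rw [← Equiv.sum_comp e fun d => pt (φ d), sub_eq_iff_eq_add, star,
    ← sum_ite_eq_of_mem univ i (fun b => pt (φ (e b))) (mem_univ _), ← sum_add_distrib]
  refine sum_congr rfl fun j _ => ?_
  rw [h2]
  split_ifs <;> simp

omit [DecidableEq X] in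
lemma IsW.enum {M : Type} [Fintype M] [DecidableEq M] {B : Matrix M M ℤ} {δ : ℕ} (h : IsW B δ)
    (i : M) : ∃ g : Fin δ → M, Function.Injective g ∧
      ∀ f : M → X → ℤ, ∑ j, |B i j| • f j = ∑ u, f (g u) := by
  have h1 : ∀ j, |B i j| = if B i j ≠ 0 then 1 else 0 := fun j => by
    rcases h.ent i j with e | e | e <;> simp [e]
  have h2 : Fintype.card {j // B i j ≠ 0} = δ := by
    have := h.sum_abs i
    rw [sum_congr rfl fun j _ => h1 j, sum_boole, ← Fintype.card_subtype] at this
    exact_mod_cast this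
  let e := (Fintype.equivFinOfCardEq h2).symm
  refine ⟨fun u => e u, Subtype.val_injective.comp e.injective, fun f => ?_⟩
  rw [Equiv.sum_comp e fun j => f j, ← sum_subtype (univ.filter fun j => B i j ≠ 0) (by simp),
    sum_filter]
  refine sum_congr rfl fun j _ => ?_
  rw [h1]
  split_ifs <;> simp

/-- the stars of the sum of a Hadamard matrix and a weighing matrix -/
lemma sigma_piece {D M : Type} [Fintype D] [DecidableEq D] [Fintype M] [DecidableEq M]
    (hD : HadOn D) {B : Matrix M M ℤ} {δ : ℕ} (hB : IsW B δ) :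
    ∃ nb : M ⊕ M → Fin δ → M ⊕ M, (∀ ν, Function.Injective (nb ν)) ∧ (∀ ν u, nb ν u ≠ ν) ∧
      ∀ φ : M ⊕ M → D → X,
        ∑ ν, ∑ d, ({∑ d', pt (φ ν d') + ∑ u, pt (φ (nb ν u) d)} : Multiset (X → ℤ)) ∈
          St X (Fintype.card D + δ) := by
  obtain ⟨H, h1, h2⟩ := HadOn.isW hD
  choose g g1 g2 using hB.enum (X := X)
  choose g' g1' g2' using hB.transpose.enum (X := X)
  refine ⟨Sum.elim (fun m u => Sum.inr (g m u)) (fun m u => Sum.inl (g' m u)), ?_, ?_,
    fun φ => ⟨_, _, _, _, Sum.elim (fun p => φ (Sum.inl p.1) p.2) (fun p => φ (Sum.inr p.1) p.2),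
      h1.sum hB, ?_⟩⟩
  · rintro (m | m)
    exacts [Sum.inr_injective.comp (g1 m), Sum.inl_injective.comp (g1' m)]
  · rintro (m | m) u <;> simp
  · rw [Fintype.sum_sum_type, Fintype.sum_sum_type, Fintype.sum_prod_type, Fintype.sum_prod_type]
    congr 1 <;> refine sum_congr rfl fun m _ => sum_congr rfl fun d _ => ?_ <;> congr 1
    · simp only [Sum.elim_inl]
      rw [← g2 m fun j => pt (φ (Sum.inr j) d)]
      simp [star, sumM, Fintype.sum_sum_type, Fintype.sum_prod_type, Matrix.one_apply, apply_ite abs,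
        h2]
    · simp only [Sum.elim_inr]
      rw [← g2' m fun j => pt (φ (Sum.inl j) d), add_comm]
      simp [star, sumM, Fintype.sum_sum_type, Fintype.sum_prod_type, Matrix.one_apply, apply_ite abs,
        h2]

end

end Pool.Agent.MP_d8b1b3_co.H68
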