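import Mathlib
import Pool.Agent.MP_d8b1b3_co.H68.Tile

/-!
The design: the stars of a sum piece, developed under the affine group of a finite field and a
group of shifts, are completed to full rows. From a Hadamard matrix of order `h` one gets Hadamard
matrices whose order is a multiple of a slightly larger odd number `w`.
-/

set_option autoImplicit false

namespace Pool.Agent.MP_d8b1b3_co.H68

section

open Finset

variable {F : Type} [Field F] [Fintype F] [DecidableEq F]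

/-- the affine maps of the line -/
def af (p : Fˣ × F) (x : F) : F := p.1 * x + p.2

omit [Fintype F] [DecidableEq F] in
lemma af_inj (p : Fˣ × F) : Function.Injective (af p) := fun _ _ h =>
  mul_left_cancel₀ p.1.ne_zero (add_right_cancel h)

lemma sum_af {M : Type} [AddCommMonoid M] (x : F) (f : F → M) :
    ∑ p : Fˣ × F, f (af p x) = Fintype.card Fˣ • ∑ π, f π := by
  rw [Fintype.sum_prod_type, ← card_univ, ← sum_const]
  exact sum_congr rfl fun a _ => Equiv.sum_comp (Equiv.addLeft (a * x)) f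

lemma sum_af₂ {M : Type} [AddCommMonoid M] {x x' : F} (h : x ≠ x') (f : F → F → M) :
    ∑ p : Fˣ × F, f (af p x) (af p x') = ∑ p : Fˣ × F, f (af p 1) (af p 0) := by
  rw [Fintype.sum_prod_type, Fintype.sum_prod_type,
    ← Equiv.sum_comp (Equiv.mulRight (Units.mk0 (x - x') (sub_ne_zero.2 h)))
      fun a : Fˣ => ∑ b, f (af (a, b) 1) (af (a, b) 0)]
  refine sum_congr rfl fun a _ => ?_
  rw [← Equiv.sum_comp (Equiv.addLeft (a * x'))
    fun b => f (af (Equiv.mulRight (Units.mk0 (x - x') (sub_ne_zero.2 h)) a, b) 1)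
      (af (Equiv.mulRight (Units.mk0 (x - x') (sub_ne_zero.2 h)) a, b) 0)]
  refine sum_congr rfl fun b _ => ?_
  congr 1
  · simp only [af, Equiv.coe_mulRight, Units.val_mul, Units.val_mk0, Equiv.coe_addLeft]; ring
  · simp [af]

variable {Λ Γ : Type} [Fintype Λ] [DecidableEq Λ]

/-- a full line -/
def Ln (Λ : Type) [Fintype Λ] [DecidableEq Λ] (π : F) : F × Λ → ℤ := ∑ y, pt (π, y)

/-- a line with one point removed and one point of another line added -/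
def Tr (s : Γ → Λ) (π π' : F) (k : Γ) (y : Λ) : F × Λ → ℤ := pt (π', s k) + Ln Λ π - pt (π, y)

/-- all full lines -/
def alls (F Λ : Type) [Fintype F] [DecidableEq F] [Fintype Λ] [DecidableEq Λ] :
    Multiset (F × Λ → ℤ) := ∑ π, {Ln Λ π}

omit [Field F] in
lemma sum_Ln : ∑ π : F, Ln Λ π = 1 := by
  ext ⟨a, b⟩
  simp [Ln, pt, Finset.sum_apply, ite_and]

/-- `n` rows, obtained from `n` standard rows by adding and removing stars -/
def Md (F Λ : Type) [Fintype F] [DecidableEq F] [Fintype Λ] [DecidableEq Λ] :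
    AddSubmonoid (ℕ × Multiset (F × Λ → ℤ) × Multiset (F × Λ → ℤ)) where
  carrier := {p | ∃ μ, (p.1, μ) ∈ Rows (F × Λ) ∧ μ + p.2.2 = p.2.1 + p.1 • alls F Λ}
  zero_mem' := ⟨0, zero_mem _, by simp⟩
  add_mem' := by
    rintro ⟨n, ρ, o⟩ ⟨n', ρ', o'⟩ ⟨μ, h1, h2⟩ ⟨μ', h1', h2'⟩
    refine ⟨μ + μ', add_mem h1 h1', ?_⟩
    simp only [Prod.mk_add_mk, add_smul] at h2 h2' ⊢
    rw [add_add_add_comm, h2, h2', add_add_add_comm]

omit [Field F] in
lemma Md.base {K : Type} [Fintype K] {g : K → F} (hg : Function.Injective g)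
    {ρ : Multiset (F × Λ → ℤ)} (h : ρ.sum = ∑ k, Ln Λ (g k)) :
    (1, ρ, ∑ k, {Ln Λ (g k)}) ∈ Md F Λ := by
  refine ⟨ρ + ∑ π ∈ (univ.map ⟨g, hg⟩)ᶜ, {Ln Λ π}, Rows.one ?_, ?_⟩
  · rw [Multiset.sum_add, h, ← sum_Ln, ← sum_add_sum_compl (univ.map ⟨g, hg⟩), sum_map,
      Multiset.sum_sum]
    simp
  · simp only [one_smul, alls]
    rw [← sum_add_sum_compl (univ.map ⟨g, hg⟩), sum_map, add_assoc, add_comm (∑ π ∈ _ᶜ, _)]
    rfl

omit [Field F] in
lemma Md.sum {K : Type} [Fintype K] {n : ℕ} {ρ : K → Multiset (F × Λ → ℤ)}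
    {o : K → Multiset (F × Λ → ℤ)} (h : ∀ k, (n, ρ k, o k) ∈ Md F Λ) :
    (Fintype.card K * n, ∑ k, ρ k, ∑ k, o k) ∈ Md F Λ := by
  have := sum_mem (t := univ) fun k _ => h k
  rwa [← prod_mk_sum, ← prod_mk_sum, sum_const, card_univ, smul_eq_mul] at this

omit [Field F] in
lemma Md.sum' {K : Type} [Fintype K] {n c : ℕ} {ρ : K → Multiset (F × Λ → ℤ)}
    (h : ∀ k, (n, ρ k, c • alls F Λ) ∈ Md F Λ) :
    (Fintype.card K * n, ∑ k, ρ k, (Fintype.card K * c) • alls F Λ) ∈ Md F Λ := by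
  have := Md.sum h
  rwa [sum_const, card_univ, smul_smul] at this

omit [Field F] in
lemma Md.triv (ρ : Multiset (F × Λ → ℤ)) : (0, ρ, ρ) ∈ Md F Λ := ⟨0, zero_mem _, by simp⟩

omit [Field F] in
lemma Md.cell {n c α : ℕ} {ρ : Multiset (F × Λ → ℤ)} (h : (n, ρ, c • alls F Λ) ∈ Md F Λ)
    (hn : n ≤ α) (hc : c ≤ α) : (α, ρ + (α - c) • alls F Λ) ∈ Rows (F × Λ) := by
  obtain ⟨μ, h1, h2⟩ := h
  have h3 : (1, alls F Λ) ∈ Rows (F × Λ) :=
    Rows.one (by rw [alls, Multiset.sum_sum, ← sum_Ln]; simp)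
  have h4 := add_mem h1 (nsmul_mem h3 (α - n))
  simp only [Prod.smul_mk, Prod.mk_add_mk, smul_eq_mul, mul_one, Nat.add_sub_cancel' hn] at h2 h4
  have h5 : μ + (α - n) • alls F Λ = ρ + (α - c) • alls F Λ := by
    apply add_right_cancel (b := c • alls F Λ)
    rw [add_right_comm, h2, add_assoc, add_assoc, ← add_smul, ← add_smul, Nat.add_sub_cancel' hn,
      Nat.sub_add_cancel hc]
  rwa [h5] at h4

/-- the modified lines of a given shape over all ordered pairs of lines -/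
def tt (F : Type) [Field F] [Fintype F] [DecidableEq F] (s : Γ → Λ) (k : Γ) (y : Λ) :
    Multiset (F × Λ → ℤ) := ∑ p : Fˣ × F, {Tr s (af p 1) (af p 0) k y}

/-- the supply of modified lines -/
def SS (F : Type) [Field F] [Fintype F] [DecidableEq F] [Fintype Γ] (s : Γ → Λ) :
    Multiset (F × Λ → ℤ) :=
  ∑ k, ∑ p : Fˣ × F, ({Ln Λ (af p 1)} + ∑ y, {Tr s (af p 1) (af p 0) k y})

lemma SS_eq [Fintype Γ] (s : Γ → Λ) :
    SS F s = (Fintype.card Γ * Fintype.card Fˣ) • alls F Λ + ∑ k, ∑ y, tt F s k y := by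
  rw [SS, ← smul_smul, ← card_univ (α := Γ), ← sum_const, ← sum_add_distrib]
  refine sum_congr rfl fun k _ => ?_
  rw [sum_add_distrib, sum_af 1 fun π => ({Ln Λ π} : Multiset _), sum_comm]
  rfl

lemma SS_mem [Fintype Γ] (s : Γ → Λ) (S : AddSubmonoid (Multiset (F × Λ → ℤ))) (n : ℕ)
    (h : ∀ φ : Option Λ → F × Λ, n • ∑ d, {∑ d', pt (φ d') - pt (φ d)} ∈ S) : n • SS F s ∈ S := by
  rw [SS, smul_sum]
  refine sum_mem fun k _ => ?_
  rw [smul_sum]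
  refine sum_mem fun p _ => ?_
  have := h fun o => o.elim (af p 0, s k) fun y => (af p 1, y)
  simp only [Fintype.sum_option, Option.elim, add_sub_cancel_left] at this
  exact this

lemma swap_rows (s : Γ → Λ) (k k' : Γ) :
    (Fintype.card (Fˣ × F) * 1, tt F s k (s k') + tt F s k' (s k),
      (2 * Fintype.card Fˣ) • alls F Λ) ∈ Md F Λ := by
  have h := Md.sum (Λ := Λ) fun p : Fˣ × F => Md.base (K := Bool)
    (g := fun c => af p (if c = true then 1 else 0))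
    ((af_inj p).comp (by rintro (_ | _) (_ | _) <;> simp))
    (ρ := {Tr s (af p 1) (af p 0) k (s k')} + {Tr s (af p 0) (af p 1) k' (s k)})
    (by simp [Tr]; ring)
  rw [sum_add_distrib, sum_af₂ zero_ne_one fun π π' => ({Tr s π π' k' (s k)} : Multiset _),
    sum_comm] at h
  simp only [sum_af _ fun π => ({Ln Λ π} : Multiset _), sum_const, card_univ, Fintype.card_bool,
    smul_smul] at h
  exact h

section

variable {V D U : Type} [Fintype V] [Fintype D] [Fintype U]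

/-- the star of a sum piece -/
def sg (ι : V → F) (nb : V → U → V) (ε : D ⊕ U ≃ Λ) (ν : V) (d : D) : F × Λ → ℤ :=
  ∑ d', pt (ι ν, ε (Sum.inl d')) + ∑ u, pt (ι (nb ν u), ε (Sum.inl d))

omit [Fintype V] in
lemma sigma_rows (s : Γ → Λ) {ι : V → F} (hι : Function.Injective ι) {nb : V → U → V}
    (h1 : ∀ ν, Function.Injective (nb ν)) (h2 : ∀ ν u, nb ν u ≠ ν) (ε : D ⊕ U ≃ Λ) (κ : U → Γ)
    (hε : ∀ u, ε (Sum.inr u) = s (κ u)) (ν : V) (d : D) :
    (Fintype.card (Fˣ × F) * 1, ∑ p : Fˣ × F, {sg (fun v => af p (ι v)) nb ε ν d} +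
      ∑ u, tt F s (κ u) (ε (Sum.inl d)),
      ((1 + Fintype.card U) * Fintype.card Fˣ) • alls F Λ) ∈ Md F Λ := by
  have h := Md.sum (Λ := Λ) fun p : Fˣ × F => Md.base (K := Option U)
    (g := fun o => af p (ι (o.elim ν (nb ν))))
    ((af_inj p).comp (hι.comp (by
      rintro (_ | u) (_ | u') h
      · rfl
      · exact absurd h.symm (h2 ν u')
      · exact absurd h (h2 ν u)
      · exact congrArg some (h1 ν h))))
    (ρ := {sg (fun v => af p (ι v)) nb ε ν d} +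
      ∑ u, {Tr s (af p (ι (nb ν u))) (af p (ι ν)) (κ u) (ε (Sum.inl d))})
    (by
      have e : Ln Λ (af p (ι ν)) = ∑ d', pt (af p (ι ν), ε (Sum.inl d')) +
          ∑ u, pt (af p (ι ν), s (κ u)) := by
        rw [Ln, ← Equiv.sum_comp ε, Fintype.sum_sum_type]
        simp only [hε]
      rw [Multiset.sum_add, Multiset.sum_sum, Fintype.sum_option]
      simp only [Multiset.sum_singleton, sg, Tr, Option.elim, e, sum_sub_distrib, sum_add_distrib]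
      ring)
  rw [sum_add_distrib, sum_comm (t := (univ : Finset U)), sum_comm (t := (univ : Finset (Option U)))]
    at h
  simp only [sum_af _ fun π => ({Ln Λ π} : Multiset _), sum_const, card_univ, Fintype.card_option,
    smul_smul] at h
  rw [sum_congr rfl fun u _ => sum_af₂ (hι.ne (h2 ν u))
    fun π π' => ({Tr s π π' (κ u) (ε (Sum.inl d))} : Multiset _), add_comm _ 1] at h
  exact h

variable [AddCommGroup Γ] [Fintype Γ]

/-- all stars of the developed sum pieces -/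
def Sg (ι : V → F) (nb : V → U → V) (ε : Γ → D ⊕ U ≃ Λ) : Multiset (F × Λ → ℤ) :=
  ∑ l, ∑ ν, ∑ d, ∑ p : Fˣ × F, {sg (fun v => af p (ι v)) nb (ε l) ν d}

omit [Fintype Λ] [AddCommGroup Γ] in
lemma Sg_mem (ι : V → F) (nb : V → U → V) (ε : Γ → D ⊕ U ≃ Λ)
    (S : AddSubmonoid (Multiset (F × Λ → ℤ)))
    (h : ∀ φ : V → D → F × Λ,
      ∑ ν, ∑ d, {∑ d', pt (φ ν d') + ∑ u, pt (φ (nb ν u) d)} ∈ S) : Sg ι nb ε ∈ S := by
  refine sum_mem fun l _ => ?_
  rw [sum_congr rfl fun ν _ => sum_comm, sum_comm]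
  exact sum_mem fun p _ => h fun ν d => (af p (ι ν), ε l (Sum.inl d))

theorem design (s : Γ → Λ) {ι : V → F} (hι : Function.Injective ι) {nb : V → U → V}
    (h1 : ∀ ν, Function.Injective (nb ν)) (h2 : ∀ ν u, nb ν u ≠ ν) (ε : Γ → D ⊕ U ≃ Λ)
    (τ : U → Γ) (hε : ∀ l u, ε l (Sum.inr u) = s (τ u + l)) {m : ℕ}
    (hm : Fintype.card V = 2 * m) :
    (Fintype.card Γ * Fintype.card (Fˣ × F) *
        (2 * m * Fintype.card D + m * Fintype.card U ^ 2),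
      Sg ι nb ε + (2 * m * Fintype.card U) • SS F s,
      (Fintype.card Fˣ * Fintype.card Γ * (2 * m) * (1 + Fintype.card U) *
        (Fintype.card D + Fintype.card U)) • alls F Λ) ∈ Md F Λ := by
  have hA := Md.sum' fun l => Md.sum' fun ν => Md.sum' fun d =>
    sigma_rows s hι h1 h2 (ε l) (fun u => τ u + l) (hε l) ν d
  have hB := Md.sum' fun l => Md.sum' fun u => Md.sum' fun u' =>
    swap_rows (F := F) s (τ u + l) (τ u' + l)
  have h := add_mem (add_mem hA (nsmul_mem hB m))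
    (Md.triv ((2 * m * Fintype.card U * (Fintype.card Γ * Fintype.card Fˣ)) • alls F Λ))
  have e1 : ∑ l, ∑ u, ∑ u', (tt F s (τ u + l) (s (τ u' + l)) + tt F s (τ u' + l) (s (τ u + l))) =
      2 • ∑ l, ∑ u, ∑ u', tt F s (τ u + l) (s (τ u' + l)) := by
    rw [smul_sum]
    refine sum_congr rfl fun l _ => ?_
    simp only [sum_add_distrib]
    rw [two_smul]
    congr 1
    exact sum_comm
  have e2 : ∑ l, ∑ u, ∑ d, tt F s (τ u + l) (ε l (Sum.inl d)) +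
      ∑ l, ∑ u, ∑ u', tt F s (τ u + l) (s (τ u' + l)) =
      Fintype.card U • ∑ k, ∑ y, tt F s k y := by
    rw [← sum_add_distrib, sum_congr rfl fun l _ => sum_add_distrib.symm, sum_comm, ← card_univ,
      ← sum_const]
    refine sum_congr rfl fun u _ => ?_
    rw [← Equiv.sum_comp (Equiv.addLeft (τ u)) fun k => ∑ y, tt F s k y]
    refine sum_congr rfl fun l _ => ?_
    rw [← Equiv.sum_comp (ε l), Fintype.sum_sum_type]
    simp only [hε, Equiv.coe_addLeft]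
  have e3 : ∑ l, ∑ ν, ∑ d, (∑ p : Fˣ × F, {sg (fun v => af p (ι v)) nb (ε l) ν d} +
      ∑ u, tt F s (τ u + l) (ε l (Sum.inl d))) =
      Sg ι nb ε + (2 * m) • ∑ l, ∑ u, ∑ d, tt F s (τ u + l) (ε l (Sum.inl d)) := by
    simp only [sum_add_distrib, sum_const, card_univ, hm]
    rw [smul_sum]
    congr 1
    exact sum_congr rfl fun l _ => by rw [sum_comm]
  simp only [Prod.smul_mk, Prod.mk_add_mk, smul_eq_mul, smul_smul, ← add_smul] at h
  rw [e1, e3, smul_smul, mul_comm m 2, add_assoc (Sg ι nb ε), ← smul_add, e2, hm] at h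
  rw [SS_eq, smul_add, smul_smul, add_comm (_ • alls F Λ), ← add_assoc, mul_smul (2 * m)]
  refine (congrArg (· ∈ Md F Λ) ?_).mp h
  congr 1
  · ring
  · congr 2
    ring

end

end

section

open Finset

lemma exists_eps {D U Λ : Type} [Fintype D] [Fintype U] [Fintype Λ] {f : U → Λ}
    (hf : Function.Injective f) (h : Fintype.card D + Fintype.card U = Fintype.card Λ) :
    ∃ e : D ⊕ U ≃ Λ, ∀ u, e (Sum.inr u) = f u := by
  classical
  let e1 := Equiv.ofInjective f hf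
  have h2 : Fintype.card D = Fintype.card ((Set.range f)ᶜ : Set Λ) := by
    rw [Fintype.card_compl_set, ← Fintype.card_congr e1]; omega
  exact ⟨(Equiv.sumComm D U).trans ((e1.sumCongr (Fintype.equivOfCardEq h2)).trans
    (Equiv.Set.sumCompl _)), fun u => by simp [e1]⟩

section

variable {F Λ Γ : Type} [Field F] [Fintype F] [DecidableEq F] [Fintype Λ] [DecidableEq Λ]
  [AddCommGroup Γ] [Fintype Γ]

lemma design' {s : Γ → Λ} (hs : Function.Injective s) {h δ m w : ℕ} (H : HadOn (Fin h))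
    (B : WM m δ) (hw : h + δ = w) (hΛ : Fintype.card Λ = w) (hδ : δ ≤ Fintype.card Γ)
    (hm : 2 * m ≤ Fintype.card F) : ∃ σ ∈ St (F × Λ) w,
      (Fintype.card Γ * ((Fintype.card F - 1) * Fintype.card F) * (2 * m * h + m * δ ^ 2),
        σ + (2 * m * δ) • SS F s,
        ((Fintype.card F - 1) * Fintype.card Γ * (2 * m) * (1 + δ) * w) • alls F Λ) ∈ Md F Λ := by
  obtain ⟨B, hB⟩ := B
  obtain ⟨nb, n1, n2, n3⟩ := sigma_piece (X := F × Λ) H hB
  obtain ⟨ι⟩ : Nonempty (Fin m ⊕ Fin m ↪ F) :=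
    Function.Embedding.nonempty_of_card_le (by simp; omega)
  obtain ⟨τ⟩ : Nonempty (Fin δ ↪ Γ) := Function.Embedding.nonempty_of_card_le (by simpa using hδ)
  have he : ∀ l : Γ, ∃ e : Fin h ⊕ Fin δ ≃ Λ, ∀ u, e (Sum.inr u) = s (τ u + l) := fun l =>
    exists_eps (fun u u' e => τ.injective (add_right_cancel (hs e))) (by simp; omega)
  choose ε hε using he
  have h1 := design s ι.injective n1 n2 ε τ hε (m := m) (by simp; omega)
  have h2 := Sg_mem ι nb ε _ n3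
  simp only [Fintype.card_fin, Fintype.card_prod, Fintype.card_units, hw] at h1 h2
  exact ⟨_, h2, h1⟩

end

/-- Miyamoto's theorem, in a weak form -/
theorem miyamoto {q : ℕ} (hq : q.Prime) (h2 : q ≠ 2) (H : HadOn (Fin (q - 1))) :
    HadOn (Fin (8 * q)) := by
  have : Fact q.Prime := ⟨hq⟩
  have hq0 := hq.pos
  let s : ZMod 1 → Fin q := fun _ => ⟨0, hq0⟩
  obtain ⟨σ, s1, s2⟩ := design' (F := ZMod 2) (s := s) (fun _ _ _ => Subsingleton.elim _ _)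
    (m := 1) (δ := 1) (w := q) H ⟨1, IsW.one⟩ (by omega) (by simp) (by simp) (by simp)
  have h3 := Md.cell (α := 4 * q) s2 (by simp; omega) (by simp)
  have h4 : (2 * 1 * 1) • SS (ZMod 2) s ∈ St (ZMod 2 × Fin q) q :=
    SS_mem s _ _ fun φ => nsmul_mem (by
      have := conf_piece (ZMod q) (by rw [ZMod.ringChar_zmod_n]; exact h2) (by simp) φ
      rwa [ZMod.card] at this) _
  have h5 := tile_of (add_mem (add_mem s1 h4) (by simp)) h3
  rw [Fintype.card_prod, ZMod.card, Fintype.card_fin] at h5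
  exact (h5.had hq0 (hadOn_two_pow 2) (hadOn_two_pow 1)).of_card (by simp)

lemma plain_tile {t w : ℕ} (h : G t w) (hw : 0 < w) (α : ℕ) :
    Tile (2 * w) (α * (2 * w)) (2 ^ t * (2 * w)) := by
  have h1 := G_plain h hw (Fintype.card_fin w) id
  have h2 : (1, ({∑ d, pt (id d)} : Multiset (Fin w → ℤ))) ∈ Rows (Fin w) :=
    Rows.one (by ext y; simp [pt, Finset.sum_apply])
  have h3 := tile_of_Pw (n := 2 ^ t * w) h1 (by simpa using nsmul_mem h2 (2 ^ t * w))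
  rw [Fintype.card_fin, mul_left_comm] at h3
  exact h3.transpose.mul_left α

lemma cell_tile (F : Type) [Field F] [Fintype F] [DecidableEq F]
    {t w h₁ h₂ δ₁ δ₂ m₁ m₂ R₁ R₂ α E β : ℕ} (hβ : Fintype.card F = β) (hG : G t w) (hw : 0 < w)
    (H₁ : HadOn (Fin h₁)) (H₂ : HadOn (Fin h₂)) (B₁ : WM m₁ δ₁) (B₂ : WM m₂ δ₂)
    (w₁ : h₁ + δ₁ = w) (w₂ : h₂ + δ₂ = w) (hE : 0 < E) (hEw : E ≤ w) (d₁ : δ₁ ≤ E) (d₂ : δ₂ ≤ E)
    (f₁ : 2 * m₁ ≤ β) (f₂ : 2 * m₂ ≤ β)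
    (hn : 2 ^ t ∣ R₁ * (2 * m₁ * δ₁) + R₂ * (2 * m₂ * δ₂))
    (ha : R₁ * ((β - 1) * E * (2 * m₁) * (1 + δ₁)) + R₂ * ((β - 1) * E * (2 * m₂) * (1 + δ₂)) ≤ α)
    (hd : R₁ * ((β - 1) * E * (2 * m₁) * (1 + δ₁)) + R₂ * ((β - 1) * E * (2 * m₂) * (1 + δ₂)) ≡ α
      [MOD 2 ^ t])
    (hr : R₁ * (E * ((β - 1) * β) * (2 * m₁ * h₁ + m₁ * δ₁ ^ 2)) +
      R₂ * (E * ((β - 1) * β) * (2 * m₂ * h₂ + m₂ * δ₂ ^ 2)) ≤ α * w) :
    Tile (2 * w) (α * (2 * w)) (β * (2 * w)) := by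
  have : NeZero E := ⟨hE.ne'⟩
  obtain ⟨s⟩ : Nonempty (ZMod E ↪ Fin w) :=
    Function.Embedding.nonempty_of_card_le (by simpa using hEw)
  obtain ⟨σ₁, s₁, k₁⟩ := design' (F := F) s.injective H₁ B₁ w₁ (by simp) (by simpa using d₁)
    (hβ ▸ f₁)
  obtain ⟨σ₂, s₂, k₂⟩ := design' (F := F) s.injective H₂ B₂ w₂ (by simp) (by simpa using d₂)
    (hβ ▸ f₂)
  have k := add_mem (nsmul_mem k₁ R₁) (nsmul_mem k₂ R₂)
  simp only [Prod.smul_mk, Prod.mk_add_mk, smul_eq_mul, smul_smul, ← add_smul, smul_add, hβ,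
    ZMod.card] at k
  obtain ⟨a, ha'⟩ := (Nat.modEq_iff_dvd' ha).1 hd
  obtain ⟨n, hn'⟩ := hn
  generalize hc : R₁ * ((β - 1) * E * (2 * m₁) * (1 + δ₁)) +
    R₂ * ((β - 1) * E * (2 * m₂) * (1 + δ₂)) = c at ha ha'
  have e : R₁ * ((β - 1) * E * (2 * m₁) * (1 + δ₁) * w) +
      R₂ * ((β - 1) * E * (2 * m₂) * (1 + δ₂) * w) = c * w := by rw [← hc]; ring
  rw [e, add_add_add_comm, ← add_smul, hn'] at k
  have k' := Md.cell k hr (Nat.mul_le_mul_right w ha)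
  rw [← Nat.sub_mul, ha'] at k'
  have p1 : (2 ^ t * n) • SS F s ∈ Pw (F × Fin w) w := by
    rw [mul_comm, mul_smul]
    exact nsmul_mem (SS_mem s _ _ fun φ => G_minus hG hw (by simp) φ) n
  have p2 : (2 ^ t * a * w) • alls F (Fin w) ∈ Pw (F × Fin w) w := by
    rw [mul_right_comm, mul_comm, mul_smul, alls, smul_sum]
    exact nsmul_mem (sum_mem fun π _ => G_plain hG hw (by simp) fun y => (π, y)) a
  have := tile_of_Pw (add_mem (add_mem (add_mem (nsmul_mem (St.dbl s₁) R₁)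
    (nsmul_mem (St.dbl s₂) R₂)) p1) p2) k'
  rwa [Fintype.card_prod, hβ, Fintype.card_fin, mul_left_comm 2 α, mul_left_comm 2 β] at this

lemma exists_solve {c : ℕ} (hc : c % 2 = 1) (k a : ℕ) :
    ∃ z, z < 2 ^ k ∧ c * z ≡ a [MOD 2 ^ k] := by
  have h1 : c.Coprime (2 ^ k) :=
    (Nat.coprime_two_right.2 (Nat.odd_iff.2 hc)).pow_right k
  have : NeZero (2 ^ k) := ⟨by positivity⟩
  refine ⟨((c : ZMod (2 ^ k))⁻¹ * a).val, ZMod.val_lt _, ?_⟩
  rw [← ZMod.natCast_eq_natCast_iff, Nat.cast_mul, ZMod.natCast_zmod_val, ← mul_assoc,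
    ZMod.coe_mul_inv_eq_one c h1, one_mul]

lemma bounds {Δ R β E m δ h w : ℕ} (hΔ : 9 ≤ Δ) (hR : R ≤ Δ ^ 11) (hβ : β ≤ Δ ^ 13) (hE : E ≤ Δ)
    (hm : 2 * m ≤ Δ ^ 11) (hδ : δ ≤ Δ) (hh : h ≤ w) (hw : 1 ≤ w) :
    2 * (R * ((β - 1) * E * (2 * m) * (1 + δ))) ≤ Δ ^ 64 ∧
      2 * (R * (E * ((β - 1) * β) * (2 * m * h + m * δ ^ 2))) ≤ Δ ^ 64 * w := by
  have b1 : β - 1 ≤ Δ ^ 13 := by omega
  have b2 : 1 + δ ≤ Δ ^ 2 := by nlinarith
  have b3 : 2 ≤ Δ := by omega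
  have b4 : m ≤ Δ ^ 11 := by omega
  have b5 : 2 * m * h + m * δ ^ 2 ≤ Δ ^ 14 * w := by
    calc _ ≤ Δ ^ 11 * w + Δ ^ 11 * (Δ ^ 2 * w) := by
          gcongr
          exact (Nat.pow_le_pow_left hδ 2).trans (Nat.le_mul_of_pos_right _ hw)
      _ = Δ ^ 11 * (1 + Δ ^ 2) * w := by ring
      _ ≤ Δ ^ 11 * Δ ^ 3 * w := by gcongr; nlinarith
      _ = _ := by ring
  constructor
  · calc _ ≤ Δ * (Δ ^ 11 * (Δ ^ 13 * Δ * Δ ^ 11 * Δ ^ 2)) := by gcongr
      _ = Δ ^ 39 := by ring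
      _ ≤ _ := Nat.pow_le_pow_right (by omega) (by norm_num)
  · calc _ ≤ Δ * (Δ ^ 11 * (Δ * (Δ ^ 13 * Δ ^ 13) * (Δ ^ 14 * w))) := by gcongr
      _ = Δ ^ 53 * w := by ring
      _ ≤ _ := Nat.mul_le_mul_right w (Nat.pow_le_pow_right (by omega) (by norm_num))

lemma exists_field {B : ℕ} (hB : 0 < B) : ∃ (F : Type) (_ : Field F) (_ : Fintype F) (b : ℕ),
    Fintype.card F = 2 * b + 1 ∧ b % 2 = 1 ∧ B ≤ 2 * b + 1 ∧ 2 * b + 1 ≤ 27 * B := by
  have : Fact (Nat.Prime 3) := ⟨Nat.prime_three⟩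
  obtain ⟨k, h1, h2⟩ : ∃ k, 9 ^ k ≤ B ∧ B < 9 ^ (k + 1) :=
    ⟨Nat.log 9 B, Nat.pow_log_le_self 9 hB.ne', Nat.lt_pow_succ_log_self (by norm_num) B⟩
  have h3 : 9 ^ k % 8 = 1 := by rw [Nat.pow_mod]; simp
  have h4 : 3 ^ (2 * k + 3) = 27 * 9 ^ k := by rw [pow_add, pow_mul]; ring
  let _ : Fintype (GaloisField 3 (2 * k + 3)) := Fintype.ofFinite _
  refine ⟨GaloisField 3 (2 * k + 3), inferInstance, inferInstance, 27 * 9 ^ k / 2, ?_, by omega,
    by omega, by omega⟩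
  rw [← Nat.card_eq_fintype_card, GaloisField.card 3 _ (by omega), h4]
  omega

theorem shift {t w h α β Δ : ℕ} (ht : 1 ≤ t) (hG : ∀ l, 0 < l → l ≤ w → G t l) (hw : w % 2 = 1)
    (hh : h % 8 = 4) (H : HadOn (Fin h)) (hK : 2 ^ (t + 2) ≤ h) (hlt : h < w)
    (hΔ : w - h + 2 ^ (t + 2) ≤ Δ) (hα : Δ ^ 64 ≤ 2 ^ 11 * α) (hβ : Δ ^ 64 ≤ β)
    (Hα : HadOn (Fin (2 ^ 11 * α))) (Hβ : HadOn (Fin β)) :
    HadOn (Fin (2 ^ 11 * α * β * (2 * w))) := by
  classical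
  obtain ⟨t, rfl⟩ : ∃ t', t = t' + 1 := ⟨t - 1, by omega⟩
  have hK8 : 2 ^ (t + 1 + 2) = 8 * 2 ^ t := by ring
  have hK4 : 2 ^ (t + 1 + 2) = 2 ^ (t + 1) * 4 := by ring
  have hp : 0 < 2 ^ t := by positivity
  obtain ⟨K', hK'⟩ : ∃ K', 2 ^ (t + 1 + 2) = K' + 1 := ⟨2 ^ (t + 1 + 2) - 1, by omega⟩
  obtain ⟨l, r, e1, hr, hl⟩ : ∃ l r, h = 2 ^ (t + 1 + 2) * l + r ∧ r < 2 ^ (t + 1 + 2) ∧ 0 < l :=
    ⟨_, _, (Nat.div_add_mod h _).symm, Nat.mod_lt _ (by omega), Nat.div_pos hK (by omega)⟩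
  have hl2 : l ≤ 2 ^ (t + 1 + 2) * l := Nat.le_mul_of_pos_left l (by omega)
  have HN := (hG l hl (by omega)).had hl
  have hN8 : 2 ^ (t + 1 + 2) * l = 8 * (2 ^ t * l) := by ring
  generalize 2 ^ (t + 1 + 2) * l = N at e1 hl2 HN hN8
  obtain ⟨δ, rfl⟩ : ∃ δ, w = h + δ := ⟨w - h, by omega⟩
  obtain ⟨r', rfl⟩ : ∃ r', r = 4 * r' := ⟨r / 4, by omega⟩
  obtain ⟨u₁, o₁, l₁, B₁⟩ := small (d := δ) (by omega)
  obtain ⟨u₂, o₂, l₂, B₂⟩ := small (d := δ + 4 * r') (by omega)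
  have hΔ9 : 9 ≤ Δ := by omega
  have hδ : δ ≤ Δ := by omega
  have hE : δ + 4 * r' ≤ Δ := by omega
  have hKΔ : K' ≤ Δ := by omega
  replace l₁ : u₁ ≤ Δ ^ 8 := l₁.trans (Nat.pow_le_pow_left hδ 8)
  replace l₂ : u₂ ≤ Δ ^ 8 := l₂.trans (Nat.pow_le_pow_left hE 8)
  have hm : ∀ u, u ≤ Δ ^ 8 → 2 * (128 * u) ≤ Δ ^ 11 := fun u hu => by
    calc 2 * (128 * u) ≤ 9 ^ 3 * u := by omega
      _ ≤ Δ ^ 3 * Δ ^ 8 := by gcongr
      _ = _ := by ring
  obtain ⟨F, _, _, b, c1, c2, c3, c4⟩ := exists_field (B := Δ ^ 11) (by positivity)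
  replace c4 : 2 * b + 1 ≤ Δ ^ 13 := by
    calc _ ≤ 9 ^ 2 * Δ ^ 11 := by omega
      _ ≤ Δ ^ 2 * Δ ^ 11 := by gcongr
      _ = _ := by ring
  obtain ⟨z, z1, z2⟩ := exists_solve (c := b * (δ + 4 * r') * u₁ * u₂ * r')
    (by
      have o₃ : (δ + 4 * r') % 2 = 1 := by omega
      have o₄ : r' % 2 = 1 := by omega
      simp [Nat.mul_mod, c2, o₁, o₂, o₃, o₄]) (t + 1) α
  have hz : z ≤ Δ := by omega
  obtain ⟨x₁, y₁⟩ := bounds (R := (δ + 4 * r') * u₂ * z) (h := h) (w := h + δ) hΔ9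
    (by calc _ ≤ Δ * Δ ^ 8 * Δ := by gcongr
          _ = Δ ^ 10 := by ring
          _ ≤ _ := Nat.pow_le_pow_right (by omega) (by norm_num))
    c4 hE (hm u₁ l₁) hδ (by omega) (by omega)
  obtain ⟨x₂, y₂⟩ := bounds (R := K' * δ * u₁ * z) (h := N) (w := h + δ) hΔ9
    (by calc _ ≤ Δ * Δ * Δ ^ 8 * Δ := by gcongr
          _ = _ := by ring)
    c4 hE (hm u₂ l₂) hE (by omega) (by omega)
  have hαw := Nat.mul_le_mul_right (h + δ) hα
  have T1 := cell_tile F (t := t + 1) (α := 2 ^ 11 * α) (R₁ := (δ + 4 * r') * u₂ * z)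
    (R₂ := K' * δ * u₁ * z) (E := δ + 4 * r') c1 (hG _ (by omega) le_rfl) (by omega) H HN B₁ B₂ rfl
    (by omega) (by omega) (by omega) (by omega) le_rfl ((hm u₁ l₁).trans c3) ((hm u₂ l₂).trans c3)
    ⟨4 * (256 * u₁ * u₂ * δ * (δ + 4 * r') * z), by
      rw [← mul_assoc (2 ^ (t + 1)), ← hK4, hK']; ring⟩
    (by omega)
    (by
      refine Nat.ModEq.trans ?_ (z2.mul_left (2 ^ 11))
      refine ((Nat.modEq_iff_exists_eq_add ?_).2
        ⟨4 * (512 * b * (δ + 4 * r') * u₁ * u₂ * z * δ * (1 + (δ + 4 * r'))), ?_⟩).symm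
      · rw [Nat.add_sub_cancel]
        refine Nat.le.intro (k := (K' + 1) *
          (512 * b * (δ + 4 * r') * u₁ * u₂ * z * δ * (1 + (δ + 4 * r')))) (by ring)
      · rw [← mul_assoc (2 ^ (t + 1)), ← hK4, hK', Nat.add_sub_cancel]; ring)
    (by omega)
  have T2 := plain_tile (hG (h + δ) (by omega) le_rfl) (by omega) (2 ^ 11 * α)
  obtain ⟨j, j1, j2⟩ := exists_solve (c := 2 * b + 1) (by omega) (t + 1) β
  have j3 : (2 * b + 1) * j ≤ β := by
    calc _ ≤ Δ ^ 13 * Δ := by gcongr; omega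
      _ = Δ ^ 14 := by ring
      _ ≤ Δ ^ 64 := Nat.pow_le_pow_right (by omega) (by norm_num)
      _ ≤ _ := hβ
  obtain ⟨j', j4⟩ := (Nat.modEq_iff_exists_eq_add j3).1 j2
  have T := (T1.mul_right j).add (T2.mul_right j')
  rw [show j * ((2 * b + 1) * (2 * (h + δ))) + j' * (2 ^ (t + 1) * (2 * (h + δ))) =
    β * (2 * (h + δ)) by rw [j4]; ring] at T
  exact T.had (by omega) Hα Hβ

end

end Pool.Agent.MP_d8b1b3_co.H68
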